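import Pool.Agent.Helper10.TWT.A5

/-!
# Project TWT: good places exist
-/

universe u v w

namespace Pool.Agent.TWT

open Polynomial Pool.Agent.LT Pool.Agent.Helper37.UL UL Pool.Agent.OPN Pool.Agent.OPG _root_.TW

theorem ev2_mem {C : Type u} [Field C] {A K : Subfield C} (hAK : A ≤ K) {T q : C} (hT : T ∈ K)
    (hq : q ∈ K) (P : A[X][X]) : ev2 A T q P ∈ K := by
  change eval₂ _ _ P ∈ K
  rw [eval₂_eq_sum_range]
  refine sum_mem fun i _ => mul_mem ?_ (pow_mem hq _)
  change aeval T (P.coeff i) ∈ K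
  rw [aeval_eq_sum_range]
  refine sum_mem fun l _ => ?_
  rw [Algebra.smul_def]
  exact mul_mem (hAK (Subtype.property _)) (pow_mem hT _)

/-- **Good places exist.** -/
theorem exists_good_place {E C : Type u} [Field E] [IsAlgClosed E] [CharZero E] [Field C]
    [IsAlgClosed C] [Algebra E C] {A : Subfield C} (hA : A ≤ (algebraMap E C).fieldRange) {T q : C}
    (hT : Transcendental E T) (halg : ∀ z : C, IsAlgebraic (IntermediateField.adjoin E {T}) z)
    (hq : IsAlgebraic (ad A {T}) q) {m : ℕ} {J : Type u} {U : Ultrafilter J} {S : Type u} [Field S]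
    {π : (J → C) →+* S} (h : UP U π) {a : J → Fin (m + 1) → E}
    (hx : AlgebraicIndependent (A.map (UP.cst π)) (xg π fun j e => algebraMap E C (a j e)))
    {Fv : J → Subfield C} (hAFv : ∀ j, A ≤ Fv j) (hFv : ∀ j, Fv j ≤ (algebraMap E C).fieldRange)
    (haFv : ∀ j e, algebraMap E C (a j e) ∈ Fv j)
    (hwr : ∀ z ∈ h.fsub Fv,
      IsAlgebraic (gn (A.map (UP.cst π)) (xg π fun j e => algebraMap E C (a j e))) z →
      z ∈ gn ((acl A).map (UP.cst π)) (xg π fun j e => algebraMap E C (a j e)))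
    {u : Fin (m + 1) → C} (hu0 : u 0 = 1) {i₁ : Fin m} (hu1 : u i₁.succ = T)
    (hu : ∀ e, u e ∈ ad A {T, q}) (B U0 : Finset C) (hB : ∀ b ∈ B, b ∈ acl (ad A {T}))
    (hU0 : ∀ z ∈ U0, z ∈ acl (ad A {T}) ∧ z ≠ 0) :
    ∃ (j : J) (W : ValuationSubring C), W ≠ ⊤ ∧ (∀ e : E, algebraMap E C e ∈ W) ∧
      (∀ z ∈ U0, W.valuation z = 1) ∧ (∑ e, algebraMap E C (a j e) * u e) ≠ 0 ∧
      W.valuation (∑ e, algebraMap E C (a j e) * u e) < 1 ∧
      (∀ z ∈ ad (algebraMap E C).fieldRange {T, q}, z ≠ 0 → ∃ i : ℤ, W.valuation z =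
        W.valuation (∑ e, algebraMap E C (a j e) * u e) ^ i) ∧
      ∀ b ∈ B, b ∉ ad (Fv j) {T, q} → ∃ γ : C ≃+* C, (∀ z ∈ ad (Fv j) {T, q}, γ z = z) ∧
        (∀ z, γ z ∈ W ↔ z ∈ W) ∧ γ b ≠ b := by
  classical
  have hC0 : CharZero C := charZero_of_injective_algebraMap (algebraMap E C).injective
  have hA0 : CharZero A := inferInstance
  -- the algebra structure
  obtain ⟨φ, hφ⟩ : ∃ φ : A →+* E, ∀ r, algebraMap E C (φ r) = r := by
    let e : E ≃+* (algebraMap E C).fieldRange :=
      RingEquiv.ofBijective (algebraMap E C).rangeRestrictField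
        ⟨(algebraMap E C).rangeRestrictField.injective, fun ⟨_, e, he⟩ => ⟨e, Subtype.ext he⟩⟩
    refine ⟨(e.symm : (algebraMap E C).fieldRange →+* E).comp (Subfield.inclusion hA), fun r => ?_⟩
    have h1 : e (e.symm (Subfield.inclusion hA r)) = Subfield.inclusion hA r :=
      e.apply_symm_apply _
    exact congrArg Subtype.val h1
  let iA : Algebra A E := φ.toAlgebra
  have sA : IsScalarTower A E C := IsScalarTower.of_algebraMap_eq fun r => (hφ r).symm
  -- the small field
  set Cs : Subfield C := acl (ad A {T}) with hCs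
  have hqCs : q ∈ Cs := mem_acl.2 hq
  have hTCs : T ∈ Cs := le_acl mem_adE
  have hTq : ad A {T, q} ≤ Cs := by
    rw [ad_pair]
    refine ad_le le_acl ?_
    intro z hz
    rw [Set.mem_singleton_iff.1 hz]
    exact hqCs
  have huC : ∀ e, u e ∈ Cs := fun e => hTq (hu e)
  have hACs : A ≤ Cs := le_ad.trans le_acl
  -- the places
  obtain ⟨vk, hvk⟩ : ∃ vk : J → C, ∀ j, vk j = ∑ e, algebraMap E C (a j e) * u e := ⟨_, fun _ => rfl⟩
  have htr : ∀ᶠ j in (U : Filter J), Transcendental E (vk j) := by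
    simp only [hvk]
    exact ev_transc hA h hx huC hT hu1
  have hplace : ∀ j, ∃ (W : ValuationSubring C) (t : C), Base E W t ∧
      (Transcendental E (vk j) → t = vk j) := by
    intro j
    by_cases hj : Transcendental E (vk j)
    · obtain ⟨W, hW⟩ := exists_place hj (alg_of_transcendental hj halg) 0
      rw [map_zero, sub_zero] at hW
      exact ⟨W, vk j, hW, fun _ => rfl⟩
    · obtain ⟨W, hW⟩ := exists_place hT halg 0
      exact ⟨W, _, hW, fun h0 => absurd h0 hj⟩
  choose W t hW ht using hplace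
  choose lam hlam hlam0 using fun j => exists_lam (hW j)
  have hE : ∀ j, ∀ e : E, algebraMap E C e ∈ W j := fun j => (hW j).const
  have hv0 : ∀ᶠ j in (U : Filter J), (W j).valuation (vk j) < 1 := by
    filter_upwards [htr] with j hj
    rw [← ht j hj]
    exact ((W j).mem_nonunits_iff).1 (hW j).t_mem
  have hv : ∀ᶠ j in (U : Filter J), (W j).valuation (∑ e, algebraMap E C (a j e) * u e) < 1 := by
    simp only [← hvk]
    exact hv0
  have hmem : ∀ c ∈ Cs, ∀ᶠ j in (U : Filter J), c ∈ W j := fun c hc =>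
    ev_mem_W hA h hx hu0 huC hE hv hc
  have hunit : ∀ c ∈ Cs, c ≠ 0 → ∀ᶠ j in (U : Filter J), (W j).valuation c = 1 := fun c hc hc0 =>
    ev_unit_W hA h hx hu0 huC hE hv hc hc0
  obtain ⟨ι, hι⟩ := exists_iotaS h hmem (lam := lam)
  -- the primitive element
  have hTA : Transcendental A T := by
    intro h0
    apply hT
    exact IsAlgebraic.extendScalars (algebraMap A E).injective h0
  obtain ⟨G, hG, hG'⟩ := exists_eqn (F := A) (θ := q) hTA (alg_adjoin_iff.2 hq)
  obtain ⟨Q, P, hQ0, hP0, hP1, hP⟩ := exists_common (F := A) (θ := q) hu0 hu1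
    (fun e => mem_adjoin_iff.2 (hu e))
  have hevC : ∀ R : A[X][X], ev2 A T q R ∈ Cs := fun R => ev2_mem hACs hTCs hqCs R
  -- the Jacobian
  have hjac : ∀ᶠ j in (U : Filter J), ∑ e, algebraMap E C (a j e) *
      lc W lam (ev2 A T q (jac G (P e))) j ≠ 0 := by
    refine ev_sum_ne hA h hx hu0 hE hlam hlam0 hmem hι hv le_rfl
      (c := fun e => ev2 A T q (jac G (P e))) (fun e => hevC _) (i₀ := i₁) ?_ huC le_acl
    rw [hu1, hP0, hP1, jac_X_mul, map_add, map_mul, map_mul, _root_.TW.ev2_C, aeval_X, add_sub_cancel_right]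
    exact mul_ne_zero hQ0 hG'
  -- the residues of the elements of `B`
  have hBK : ∀ b ∈ B, ∀ᶠ j in (U : Filter J), b ∉ ad (Fv j) {T, q} →
      lc W lam b j ∉ ad (Fv j) {lc W lam T j, lc W lam q j} := by
    intro b hb
    by_cases hbj : ∀ᶠ j in (U : Filter J), b ∉ ad (Fv j) {T, q}
    · filter_upwards [ev_notMem hA h hx hu0 hE hlam hlam0 hmem hι hv le_rfl le_acl
        (acl_mono le_ad) hAFv haFv hwr hqCs hu (hB b hb) hbj] with j hj _
      exact hj
    · rw [← Ultrafilter.eventually_not] at hbj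
      filter_upwards [hbj] with j hj h0
      exact absurd h0 hj
  have c9 : ∀ᶠ j in (U : Filter J), ∀ e, ev2 A T q (jac G (P e)) ∈ W j :=
    Filter.eventually_all.2 fun e => hmem _ (hevC _)
  have c7 := (Filter.eventually_all_finset B).2 hBK
  have c6 : ∀ᶠ j in (U : Filter J), ∀ b ∈ B, b ∈ W j :=
    (Filter.eventually_all_finset B).2 fun b hb => hmem b (hB b hb)
  have c2 : ∀ᶠ j in (U : Filter J), ∀ u ∈ U0, (W j).valuation u = 1 :=
    (Filter.eventually_all_finset U0).2 fun u hu => hunit u (hU0 u hu).1 (hU0 u hu).2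
  obtain ⟨j, k1, k2, k3, k4, k5, k6, k7, k8, k9, k10, k11⟩ := (hjac.and (c2.and
    ((hunit _ (hevC _) hG').and ((hmem T hTCs).and ((hmem q hqCs).and (c6.and (c7.and
    ((hunit _ (hevC _) hQ0).and (c9.and (htr.and hv0)))))))))).exists
  set τ : E := lam j ⟨T, k4⟩ with hτ
  set l : E := lam j ⟨q, k5⟩ with hl
  have hTτ : (W j).valuation (T - algebraMap E C τ) < 1 :=
    lam_sub (hE j) (hlam j) (hlam0 j) ⟨T, k4⟩
  have hθl : (W j).valuation (q - algebraMap E C l) < 1 :=
    lam_sub (hE j) (hlam j) (hlam0 j) ⟨q, k5⟩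
  -- the residues of the polynomials
  have hlev : ∀ (R : A[X][X]) (hR : ev2 A T q R ∈ W j),
      lam j ⟨ev2 A T q R, hR⟩ = ev2 A τ l R := by
    intro R hR
    refine lam_eq (hE j) (hlam j) (hlam0 j) ?_
    have h1 := cong (hE j) hTτ hθl (R.map (mapRingHom (algebraMap A E)))
    rwa [ev2_map, ev2_map] at h1
  -- the simple zero
  let Pj : E[X][X] := ∑ e, Polynomial.C (Polynomial.C (a j e)) *
    (P e).map (mapRingHom (algebraMap A E))
  have hPj : ev2 E T q Pj = vk j * ev2 A T q Q := by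
    change ev2 E T q (∑ e, Polynomial.C (Polynomial.C (a j e)) *
      (P e).map (mapRingHom (algebraMap A E))) = _
    rw [hvk, map_sum, Finset.sum_mul]
    refine Finset.sum_congr rfl fun e _ => ?_
    rw [map_mul, _root_.TW.ev2_C, aeval_C, ev2_map, hP]
    ring
  have hvPj : (W j).valuation (ev2 E T q Pj) = (W j).valuation (vk j) := by
    rw [hPj, map_mul, k8, mul_one]
  have hPj0 : ev2 E τ l Pj = 0 := by
    have h1 := cong (hE j) hTτ hθl Pj
    have h2 := Valuation.map_sub_lt _ (hvPj.trans_lt k11) h1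
    rw [sub_sub_cancel] at h2
    by_contra h0
    rw [val_const (hE j) h0] at h2
    exact lt_irrefl _ h2
  have hJj : ev2 E τ l (jac (G.map (mapRingHom (algebraMap A E))) Pj) ≠ 0 := by
    intro h0
    apply k1
    have h1 : jac (G.map (mapRingHom (algebraMap A E))) Pj =
        ∑ e, Polynomial.C (Polynomial.C (a j e)) *
          jac (G.map (mapRingHom (algebraMap A E))) ((P e).map (mapRingHom (algebraMap A E))) :=
      jac_lin _ _ _ _
    rw [h1, map_sum] at h0
    rw [← map_zero (algebraMap E C), ← h0, map_sum]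
    refine Finset.sum_congr rfl fun e _ => ?_
    rw [lc_of_mem (k9 e), hlev, map_mul, map_mul, _root_.TW.ev2_C, aeval_C, jac_map, ev2_map]
    rfl
  have hval : (W j).valuation (vk j) = (W j).valuation (T - algebraMap E C τ) := by
    have h1 := val_simple (hE j) hTτ hθl (G := G.map (mapRingHom (algebraMap A E)))
      (by rw [ev2_map]; exact hG) (by rw [derivative_map, ev2_map]; exact k3) Pj hPj0 hJj
    rw [hvPj] at h1
    exact h1
  -- the base
  have hTne : T - algebraMap E C τ ≠ 0 := by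
    intro h0
    apply hT
    rw [sub_eq_zero.1 h0]
    exact isAlgebraic_algebraMap τ
  have hTtr : Transcendental E (T - algebraMap E C τ) := by
    intro h0
    apply hT
    have h1 := h0.add (isAlgebraic_algebraMap (A := C) τ)
    rwa [sub_add_cancel] at h1
  have hbase : Base E (W j) (T - algebraMap E C τ) :=
    ⟨hE j, hTne, ((W j).mem_nonunits_iff).2 hTτ, alg_of_transcendental hTtr halg⟩
  have hvk0 : vk j ≠ 0 := by
    intro h0
    rw [h0, map_zero] at hval
    exact (Valuation.ne_zero_iff _).2 hTne hval.symm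
  refine ⟨j, W j, ?_, hE j, k2, ?_, ?_, ?_, ?_⟩
  · intro h0
    have h1 : (T - algebraMap E C τ)⁻¹ ∈ W j := by rw [h0]; trivial
    have h2 := (hbase).t_mem
    rcases (ValuationSubring.mem_nonunits_iff_or _).1 h2 with h3 | h3
    · exact hTne h3
    · exact h3 h1
  · rw [← hvk]
    exact hvk0
  · rw [← hvk]
    exact k11
  · intro z hz hz0
    have hz' : z ∈ IntermediateField.adjoin E {T, q} := by
      rw [← IntermediateField.mem_toSubfield, adjoin_sub]
      exact hz
    obtain ⟨i, hi⟩ := vals_k (F := E) hbase hθl (G := G.map (mapRingHom (algebraMap A E)))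
      (by rw [ev2_map]; exact hG) (by rw [derivative_map, ev2_map]; exact k3) hz' hz0
    refine ⟨i, ?_⟩
    rw [← hvk, hval]
    exact hi
  · intro b hb hbn
    have h1 := k7 b hb hbn
    rw [lc_of_mem (k6 b hb), lc_of_mem k4, lc_of_mem k5] at h1
    exact exists_gammaS hbase hT halg (hlam j) (hlam0 j) hG k3 k5 (k6 b hb) (hAFv j) (hFv j) h1

end Pool.Agent.TWT
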