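import Pool.Agent.Helper10.TWT.E5

/-!
# Project TWT: the reduction to the key statement
-/

universe u

namespace Pool.Agent.TWT

open IntermediateField Pool.Agent.OPN Pool.Agent.Helper37.UL UL Pool.Agent.OPG Pool.Agent.UT

/-- The reduction for the indices `0`, `1`. -/
theorem thin_norm_of_keyT {F₀ k₀ : Type u} [Field F₀] [CharZero F₀] [Field k₀] [Algebra F₀ k₀]
    {I : Type} {P : ∀ (k' : Type u) [Field k'], (k₀ →+* k') → (I → k') → Prop}
    (key : KeyT k₀ P)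
    (hk₀ : ∃ S : Finset k₀, Subfield.closure (S : Set k₀) = ⊤) {m : ℕ} {w : Fin (m + 2) → k₀}
    (hw0 : w 0 ≠ 0) (hT : Transcendental F₀ (w 1 / w 0)) :
    ∃ Φ : Polynomial (MvPolynomial (I × Fin (m + 2)) F₀), NoRoot Φ ∧ IsThinU F₀ k₀ w P Φ := by
  classical
  by_contra hcon
  unfold IsThinU at hcon
  push Not at hcon
  obtain ⟨n, s, c, q, hb, hq, htop, -⟩ := fin_data1 hk₀ hT (m := m + 1) w hw0
  obtain ⟨C, _, _, y, _, hy⟩ := exists_std F₀ (ℕ ⊕ (Fin n ⊕ Unit))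
  let J : Type u := {Φ : Polynomial (MvPolynomial (I × Fin (m + 2)) F₀) // NoRoot Φ}
  have hloc : ∀ j : J, ∃ (σ : k₀ →+* C) (b : I × Fin (m + 2) → C) (Fc Kc : Subfield C),
      (∀ c : F₀, σ (algebraMap F₀ k₀ c) = algebraMap F₀ C c) ∧
      (∀ i, σ (Sum.elim s (fun _ : Unit => w 1 / w 0) i) = y (Sum.inr i)) ∧
      (∀ x ∈ Fc, Polynomial.eval₂ (aeR b) x j.1 ≠ 0) ∧
      LocT (algebraMap F₀ C).fieldRange
        (acl (gn (algebraMap F₀ C).fieldRange fun i : ℕ => y (Sum.inl i)))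
        (acl (gn (acl (gn (algebraMap F₀ C).fieldRange fun i : ℕ => y (Sum.inl i)))
          fun i : Fin n => y (Sum.inr (Sum.inl i)))) w P σ b Fc Kc := by
    intro j
    obtain ⟨F, k, _, _, _, _, _, _, _, _, hF, hk, hfree, a, hP, ha⟩ := hcon j.1 j.2
    exact exists_locT hb hq htop hy.1 hF hk hfree hP ha
  choose σ b Fc Kc h0 hb1 hne hL using hloc
  obtain ⟨Uf, hU⟩ := exists_denseV b Fc (fun Φ hΦ => ⟨(⟨Φ, hΦ⟩ : J), hne _⟩)
  exact core_falseT (c := c) hq htop hy hw0 (div_mul_cancel₀ _ hw0).symm key Uf h0 hb1 hL hU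

/-- **The reduction to the key statement for varying fields of constants.** -/
theorem thin_of_keyT {F₀ k₀ : Type u} [Field F₀] [CharZero F₀] [Field k₀] [Algebra F₀ k₀]
    {I : Type} {P : ∀ (k' : Type u) [Field k'], (k₀ →+* k') → (I → k') → Prop}
    (key : KeyT k₀ P)
    (hk₀ : ∃ S : Finset k₀, Subfield.closure (S : Set k₀) = ⊤) {m : ℕ} {w : Fin (m + 1) → k₀}
    {i l : Fin (m + 1)} (hT : Transcendental F₀ (w i / w l)) :
    ∃ Φ : Polynomial (MvPolynomial (I × Fin (m + 1)) F₀), NoRoot Φ ∧ IsThinU F₀ k₀ w P Φ := by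
  classical
  have hl : w l ≠ 0 := by
    intro h0
    rw [h0, div_zero] at hT
    exact hT isAlgebraic_zero
  have hil : i ≠ l := by
    rintro rfl
    rw [div_self hl] at hT
    exact hT isAlgebraic_one
  obtain ⟨m', rfl⟩ : ∃ m', m = m' + 1 := by
    refine ⟨m - 1, ?_⟩
    have h1 := i.2
    have h3 := l.2
    have h4 : (i : ℕ) ≠ l := fun h => hil (Fin.ext h)
    omega
  obtain ⟨g, hg0, hg1⟩ := exists_perm2 hil
  obtain ⟨Φ, hΦ, h1⟩ := thin_norm_of_keyT key hk₀ (w := w ∘ g) (by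
    change w (g 0) ≠ 0
    rw [hg0]; exact hl) (by
    change Transcendental F₀ (w (g 1) / w (g 0))
    rw [hg0, hg1]; exact hT)
  refine ⟨_, hΦ.rename (Equiv.prodCongr (Equiv.refl I) g), ?_⟩
  intro F k _ _ _ _ _ _ _ _ hF hk hfree a ha
  have h2 := PL.sysW_reindex (algebraMap k₀ k ∘ w) g a
  rw [← h2] at ha
  obtain ⟨x, hx⟩ := h1 F k hF hk hfree _ ha
  refine ⟨x, ?_⟩
  rw [Polynomial.eval₂_map, ← hx]
  congr 1
  refine RingHom.ext fun p => ?_
  change MvPolynomial.aeval a (MvPolynomial.rename _ p) = MvPolynomial.aeval _ p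
  rw [MvPolynomial.aeval_rename]

end Pool.Agent.TWT
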