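import Pool.Agent.Helper10.UT.G2
import Pool.Agent.Helper13.OPN.E
import Pool.Agent.Helper13.PL.S1
import Pool.Agent.Helper37.TW.W4

/-!
# Project TWT: descent of residues
-/

universe u v w

namespace Pool.Agent.TWT

open Polynomial Pool.Agent.Helper37.UL UL Pool.Agent.OPN

/-- adjunction over a subfield -/
theorem adjoin_ad {S : Type*} [Field S] {A : Subfield S} {X : Set S} :
    (IntermediateField.adjoin A X).toSubfield = ad A X := by
  rw [IntermediateField.adjoin_toSubfield]
  unfold ad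
  congr 2
  ext z
  exact ⟨fun ⟨y, hy⟩ => hy ▸ y.2, fun hz => ⟨⟨z, hz⟩, rfl⟩⟩

theorem mem_adjoin_iff {S : Type*} [Field S] {A : Subfield S} {X : Set S} {z : S} :
    z ∈ IntermediateField.adjoin A X ↔ z ∈ ad A X := by
  rw [← adjoin_ad]
  exact Iff.rfl

theorem alg_adjoin_iff {S : Type u} [Field S] {A : Subfield S} {X : Set S} {z : S} :
    IsAlgebraic (IntermediateField.adjoin A X) z ↔ IsAlgebraic (ad A X) z := by
  rw [← adjoin_ad]
  exact Iff.rfl

/-- **Descent.**  The element `b` is algebraic over `A(τ)`, and the generic parameters `x` satisfy a linear relation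
over `A(τ, l)`. -/
theorem desc3 {S : Type u} [Field S] [IsAlgClosed S] [CharZero S] {A D : Subfield S} {m : ℕ}
    {x : Fin (m + 1) → S} (hx : AlgebraicIndependent A x) (hAD : A ≤ D) (hxD : ∀ e, x e ∈ D)
    (hwr : ∀ z ∈ D, IsAlgebraic (gn A x) z → z ∈ gn (acl A) x) {τ l : S} {c : Fin m → S}
    (hc : ∀ i, c i ∈ ad A {τ, l}) (hl : IsAlgebraic (ad A {τ}) l)
    (hrel : x 0 + ∑ i : Fin m, x i.succ * c i = 0) {b : S} (hb : IsAlgebraic (ad A {τ}) b)
    (hbD : b ∈ ad D {τ, l}) : b ∈ ad (D ⊓ acl A) {τ, l} := by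
  classical
  -- the coefficients of the relation
  have hτl : ad A {τ, l} ≤ acl (ad A {τ}) := by
    refine ad_le (le_ad.trans le_acl) ?_
    rintro z (rfl | hz)
    · exact le_acl mem_adE
    · rw [Set.mem_singleton_iff.1 hz]
      exact mem_acl.2 hl
  have hc' : ∀ i, IsAlgebraic (IntermediateField.adjoin A {τ}) (c i) := fun i =>
    alg_adjoin_iff.2 (mem_acl.1 (hτl (hc i)))
  have hτ : IsAlgebraic (gn A x) τ := by
    have h1 := TW.tau_alg_W hx hrel hc'
    rw [← adjoin_toSubfield_gn]
    exact h1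
  have hAx : ad A {τ} ≤ acl (gn A x) := by
    refine ad_le (le_gn.trans le_acl) ?_
    intro z hz
    rw [Set.mem_singleton_iff.1 hz]
    exact mem_acl.2 hτ
  have hal : ∀ z, IsAlgebraic (ad A {τ}) z → IsAlgebraic (gn A x) z := fun z hz =>
    mem_acl.1 (acl_closed (isAlgebraic_mono hAx hz))
  -- first step
  set D' : Subfield S := D ⊓ acl (gn A x) with hD'
  have hAD' : A ≤ D' := le_inf hAD (le_gn.trans le_acl)
  have hxD' : ∀ e, x e ∈ D' := fun e => ⟨hxD e, le_acl (mem_gn e)⟩
  have hgD' : gn A x ≤ D' := gn_le hAD' hxD'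
  have h1 : b ∈ ad D' {τ, l} := by
    have hD'D : D' ≤ D := inf_le_left
    let _ : Algebra D' D := (Subfield.inclusion hD'D).toAlgebra
    have hst : IsScalarTower D' D S := IsScalarTower.of_algebraMap_eq fun _ => rfl
    have h0 : CharZero D' := inferInstance
    have h2 : b ∈ IntermediateField.adjoin D' {τ, l} := by
      refine RR.mem_adjoin_of_relClosed (L := D') (Fs := D) ?_ ?_
        (isAlgebraic_mono hgD' (hal b hb)) (mem_adjoin_iff.2 hbD)
      · intro z hz
        have h3 : IsAlgebraic D' (z : S) := hz.algebraMap (A := S)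
        have h4 : (z : S) ∈ acl (gn A x) := acl_closed (isAlgebraic_mono inf_le_right h3)
        exact ⟨⟨z, z.2, h4⟩, rfl⟩
      · rintro z (rfl | hz)
        · exact isAlgebraic_mono hgD' hτ
        · rw [Set.mem_singleton_iff.1 hz]
          exact isAlgebraic_mono hgD' (hal l hl)
    exact mem_adjoin_iff.1 h2
  -- second step
  set D₀ : Subfield S := D ⊓ acl A with hD₀
  have hAD₀ : A ≤ D₀ := le_inf hAD le_acl
  have h2 : D' ≤ gn D₀ x := by
    intro z hz
    refine desc (K := D₀) (L := gn D₀ x) (M := D) (A := (acl A : Set S)) le_gn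
      (gn_le inf_le_left hxD) ?_ (fun y hy => isAlgebraic_mono hAD₀ (mem_acl.1 hy)) hz.1 ?_
    · intro y hy hya
      exact ⟨hy, acl_closed (isAlgebraic_mono inf_le_right hya)⟩
    · have h3 := hwr z hz.1 (mem_acl.1 hz.2)
      refine (gn_le ?_ ?_ : gn (acl A) x ≤ _) h3
      · exact fun y hy => Subfield.subset_closure (Or.inr hy)
      · exact fun e => Subfield.subset_closure (Or.inl (mem_gn e))
  -- third step
  have hκ0 : ∀ r : A, (algebraMap A S r) ∈ ad D₀ {τ, l} := fun r => le_ad (hAD₀ r.2)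
  let κ' : IntermediateField A S := (ad D₀ {τ, l}).toIntermediateField hκ0
  have hκ' : ∀ z, z ∈ κ' ↔ z ∈ ad D₀ {τ, l} := fun _ => Iff.rfl
  have h3 : b ∈ κ' := by
    refine TW.mem_of_mem_W (κ := κ') hx hrel hc' (fun i => ?_) (fun z hz => ?_) ?_ ?_
    · exact ad_mono hAD₀ le_rfl (hc i)
    · have h4 : ad D₀ {τ, l} ≤ acl (ad A {τ}) := by
        refine ad_le ?_ ?_
        · intro y hy
          exact mem_acl.2 (isAlgebraic_mono le_ad (mem_acl.1 hy.2))
        · rintro y (rfl | hy)
          · exact le_acl mem_adE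
          · rw [Set.mem_singleton_iff.1 hy]
            exact mem_acl.2 hl
      exact alg_adjoin_iff.2 (mem_acl.1 (h4 hz))
    · exact alg_adjoin_iff.2 hb
    · have h5 : ad D' {τ, l} ≤ (IntermediateField.adjoin κ' (Set.range x)).toSubfield := by
        refine ad_le (h2.trans (gn_le ?_ ?_)) ?_
        · intro y hy
          exact (IntermediateField.adjoin κ' (Set.range x)).algebraMap_mem
            (⟨y, (le_ad hy : y ∈ ad D₀ {τ, l})⟩ : κ')
        · exact fun e => IntermediateField.subset_adjoin κ' _ ⟨e, rfl⟩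
        · intro y hy
          exact (IntermediateField.adjoin κ' (Set.range x)).algebraMap_mem
            (⟨y, (mem_ad hy : y ∈ ad D₀ {τ, l})⟩ : κ')
      exact h5 h1
  exact h3

end Pool.Agent.TWT
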