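import Pool.Agent.Helper10.TWT.A1
import Pool.Agent.Helper37.UL.ConstE
import Pool.Agent.Helper13.OPG.E3

/-!
# Project TWT: zeros of the generic element of a linear system, constants over a small field

The parameters `a j` are in the field of constants `E`, and they are generic over the small field `A`.
-/

universe u v w

namespace Pool.Agent.TWT

open Polynomial Pool.Agent.LT Pool.Agent.Helper37.UL UL Pool.Agent.OPN Pool.Agent.OPG _root_.TW

section descent

/-- algebraic elements of a subfield -/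
theorem alg_sub {C : Type u} [Field C] {A K Cs : Subfield C} (hAK : A ≤ K) {T : C} (hT : T ∈ Cs)
    [Algebra K Cs] (halgm : ∀ z : K, ((algebraMap K Cs z : Cs) : C) = z) {z : Cs}
    (hz : IsAlgebraic (ad A {T}) (z : C)) :
    IsAlgebraic (IntermediateField.adjoin K {(⟨T, hT⟩ : Cs)}) z := by
  obtain ⟨n, c, hc, hc0, hcz⟩ := isAlgebraic_iff.mp hz
  obtain ⟨i₀, hi₀⟩ : ∃ i, c i ≠ 0 := by
    by_contra hcon
    push Not at hcon
    exact hc0 (funext hcon)
  have h1 : ∀ y ∈ ad A {T}, ∃ y' : IntermediateField.adjoin K {(⟨T, hT⟩ : Cs)},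
      (((y' : IntermediateField.adjoin K {(⟨T, hT⟩ : Cs)}) : Cs) : C) = y := by
    have h2 : ad A {T} ≤
        (IntermediateField.adjoin K {(⟨T, hT⟩ : Cs)}).toSubfield.map Cs.subtype := by
      refine ad_le ?_ ?_
      · intro y hy
        exact ⟨algebraMap K Cs ⟨y, hAK hy⟩,
          (IntermediateField.adjoin K {(⟨T, hT⟩ : Cs)}).algebraMap_mem _, halgm _⟩
      · intro y hy
        rw [Set.mem_singleton_iff.1 hy]
        exact ⟨⟨T, hT⟩, IntermediateField.mem_adjoin_simple_self K _, rfl⟩
    intro y hy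
    obtain ⟨y', hy', h3⟩ := h2 hy
    exact ⟨⟨y', hy'⟩, h3⟩
  choose r hr using fun i => h1 (c i) (hc i)
  refine isAlg_of_rel (r := fun i => ((r i : IntermediateField.adjoin K {(⟨T, hT⟩ : Cs)}) : Cs))
    (fun i => ⟨r i, rfl⟩) i₀ ?_ ?_
  · intro h0
    apply hi₀
    rw [← hr i₀, h0]
    rfl
  · apply Cs.subtype.injective
    rw [map_zero, map_sum, ← hcz]
    refine Finset.sum_congr rfl fun i _ => ?_
    rw [map_mul, map_pow]
    change (((r i : IntermediateField.adjoin K {(⟨T, hT⟩ : Cs)}) : Cs) : C) * _ = _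
    rw [hr]
    rfl

/-- linear independence of independent elements over the algebraic elements -/
theorem lin_ne {S : Type u} [Field S] {A : Subfield S} {I : Type*} [Fintype I] {x : I → S}
    (hx : AlgebraicIndependent A x) {r : I → S} (hr : ∀ i, IsAlgebraic A (r i)) {i₀ : I}
    (hi₀ : r i₀ ≠ 0) : ∑ i, r i * x i ≠ 0 := by
  intro h0
  apply hi₀
  have h1 := (indep_acl hx).linearIndependent
  have h2 := Fintype.linearIndependent_iff.1 h1 (fun i => ⟨r i, mem_acl.2 (hr i)⟩) (by
    rw [← h0]
    rfl) i₀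
  exact congrArg Subtype.val h2

end descent

variable {E C : Type u} [Field E] [IsAlgClosed E] [CharZero E] [Field C] [IsAlgClosed C] [Algebra E C]
  {A : Subfield C} (hA : A ≤ (algebraMap E C).fieldRange) {T : C} {m : ℕ} {J : Type u}
  {U : Ultrafilter J} {S : Type u} [Field S] {π : (J → C) →+* S} (h : UP U π)
  {a : J → Fin (m + 1) → E}
  (hx : AlgebraicIndependent (A.map (UP.cst π)) (xg π fun j e => algebraMap E C (a j e)))

omit [CharZero E] [IsAlgClosed C] in
include hA in
theorem acl_range : acl A ≤ (algebraMap E C).fieldRange := by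
  intro z hz
  have h1 : IsAlgebraic (algebraMap E C).fieldRange z := isAlgebraic_mono hA (mem_acl.1 hz)
  have h2 : IsAlgebraic E z := Pool.Agent.TD.isAlgebraic_range_iff.1 h1
  obtain ⟨e, he⟩ := minpoly.mem_range_of_degree_eq_one E z
    (IsAlgClosed.degree_eq_one_of_irreducible E (minpoly.irreducible h2.isIntegral))
  exact ⟨e, he⟩

section places

variable {u : Fin (m + 1) → C} (hu0 : u 0 = 1) (hu : ∀ e, u e ∈ acl (ad A {T}))
  {W : J → ValuationSubring C} (hE : ∀ j, ∀ e : E, algebraMap E C e ∈ W j)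
  (hv : ∀ᶠ j in (U : Filter J), (W j).valuation (∑ e, algebraMap E C (a j e) * u e) < 1)

include hA h hx hu0 hu hE hv

/-- every element which is algebraic over `A(T)` is in almost all the valuation rings -/
theorem ev_mem_W {c : C} (hc : c ∈ acl (ad A {T})) : ∀ᶠ j in (U : Filter J), c ∈ W j := by
  classical
  have hC0 : CharZero C := charZero_of_injective_algebraMap (algebraMap E C).injective
  let W0 : ValuationSubring C :=
    { carrier := {c | ∀ᶠ j in (U : Filter J), c ∈ W j}
      mul_mem' := by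
        intro a b ha hb
        filter_upwards [ha, hb] with j h1 h2
        exact mul_mem h1 h2
      one_mem' := Filter.Eventually.of_forall fun j => one_mem (W j)
      add_mem' := by
        intro a b ha hb
        filter_upwards [ha, hb] with j h1 h2
        exact add_mem h1 h2
      zero_mem' := Filter.Eventually.of_forall fun j => zero_mem (W j)
      neg_mem' := by
        intro a ha
        filter_upwards [ha] with j h1
        exact neg_mem h1
      mem_or_inv_mem' := by
        intro a
        change (∀ᶠ j in (U : Filter J), a ∈ W j) ∨ (∀ᶠ j in (U : Filter J), a⁻¹ ∈ W j)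
        rw [← Ultrafilter.eventually_or]
        exact Filter.Eventually.of_forall fun j => (W j).mem_or_inv_mem a }
  have hmem : ∀ c, c ∈ W0 ↔ ∀ᶠ j in (U : Filter J), c ∈ W j := fun c => Iff.rfl
  by_contra hcon
  set Cs : Subfield C := acl (ad A {T}) with hCs
  set K : Subfield C := acl A with hK
  have hKCs : K ≤ Cs := acl_mono le_ad
  have hAK : A ≤ K := le_acl
  have hTCs : T ∈ Cs := le_acl mem_adE
  let _ : Algebra K Cs := (Subfield.inclusion hKCs).toAlgebra
  have hcl : IsAlgClosed K := isAlgClosed_of fun z hz => acl_closed hz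
  let Ws : ValuationSubring Cs := W0.comap Cs.subtype
  have hWs : ∀ z : Cs, z ∈ Ws ↔ (z : C) ∈ W0 := fun _ => Iff.rfl
  have hWt : Ws ≠ ⊤ := by
    intro h1
    apply hcon
    rw [← hmem]
    have h2 : (⟨c, hc⟩ : Cs) ∈ Ws := by rw [h1]; trivial
    exact h2
  have hKr : K ≤ (algebraMap E C).fieldRange := acl_range hA
  have hEs : ∀ e : K, algebraMap K Cs e ∈ Ws := by
    intro e
    change (e : C) ∈ W0
    obtain ⟨e', he'⟩ := hKr e.2
    rw [← he']
    exact Filter.Eventually.of_forall fun j => hE j e'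
  have hnu : ∀ y : Cs, y ∈ Ws.nonunits → ∀ᶠ j in (U : Filter J), (W j).valuation (y : C) < 1 := by
    intro y hy
    rw [ValuationSubring.mem_nonunits_iff_or] at hy
    rcases hy with rfl | hy
    · exact Filter.Eventually.of_forall fun j => by
        rw [ZeroMemClass.coe_zero, map_zero]
        exact zero_lt_one
    · rw [hWs, hmem, ← Ultrafilter.eventually_not] at hy
      filter_upwards [hy] with j hj
      rw [← ValuationSubring.mem_nonunits_iff, ValuationSubring.mem_nonunits_iff_or]
      exact Or.inr hj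
  obtain ⟨t, hb⟩ := exists_base_of (E := K) (Ω := Cs) (T := ⟨T, hTCs⟩)
    (fun z => alg_sub hAK hTCs (fun _ => rfl) (mem_acl.1 z.2)) hWt hEs
  let us : Fin (m + 1) → Cs := fun e => ⟨u e, hu e⟩
  have hus0 : us 0 = 1 := Subtype.ext hu0
  obtain ⟨e0, he0⟩ := Finite.exists_max (fun e => Ws.valuation (us e))
  have hM1 : 1 ≤ Ws.valuation (us e0) := by
    have h1 := he0 0
    rwa [hus0, map_one] at h1
  have hM0 : Ws.valuation (us e0) ≠ 0 := fun h => by
    rw [h] at hM1
    exact absurd hM1 (not_le.2 zero_lt_one)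
  have hM : us e0 ≠ 0 := (Valuation.ne_zero_iff _).1 hM0
  have hxW : ∀ e, us e / us e0 ∈ Ws := by
    intro e
    rw [← Ws.valuation_le_one_iff, map_div₀]
    exact (div_le_one₀ (zero_lt_iff.2 hM0)).2 (he0 e)
  choose r hr using fun e => hb.exists_residue (hxW e)
  have hr0 : r e0 ≠ 0 := by
    intro h0
    have h1 := hr e0
    rw [h0, map_zero, sub_zero, div_self hM, ValuationSubring.mem_nonunits_iff, map_one] at h1
    exact lt_irrefl _ h1
  -- the linear form does not vanish
  have h1 : ∑ e, UP.cst π (r e : C) * xg π (fun j e => algebraMap E C (a j e)) e ≠ 0 := by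
    refine lin_ne hx (fun e => ?_) (i₀ := e0) ?_
    · exact alg_map' (L := A.map (UP.cst π)) (UP.cst π) (fun y hy => ⟨y, hy, rfl⟩)
        (mem_acl.1 (r e).2)
    · rw [_root_.map_ne_zero]
      exact fun h0 => hr0 (Subtype.ext h0)
  have h1' : ∀ᶠ j in (U : Filter J), ∑ e, (r e : C) * algebraMap E C (a j e) ≠ 0 := by
    have h2 : (∑ e, UP.cst π (r e : C) * xg π (fun j e => algebraMap E C (a j e)) e) =
        π (fun j => ∑ e, (r e : C) * algebraMap E C (a j e)) := by
      have h3 : (fun j => ∑ e, (r e : C) * algebraMap E C (a j e)) =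
          ∑ e, (fun _ => (r e : C)) * (fun j => algebraMap E C (a j e)) := by
        funext j
        simp only [Finset.sum_apply, Pi.mul_apply]
      rw [h3, map_sum]
      refine Finset.sum_congr rfl fun e _ => ?_
      rw [map_mul]
      rfl
    rw [h2] at h1
    exact (h.ne0 _).1 h1
  have h2 : ∀ᶠ j in (U : Filter J), ∀ e, (W j).valuation (u e / u e0 - (r e : C)) < 1 :=
    Filter.eventually_all.2 fun e => hnu _ (hr e)
  have h3 : ∀ᶠ j in (U : Filter J), (u e0)⁻¹ ∈ W j := by
    have h4 : (us e0)⁻¹ ∈ Ws := by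
      rw [← Ws.valuation_le_one_iff, map_inv₀]
      exact inv_le_one_of_one_le₀ hM1
    exact h4
  obtain ⟨j, k1, k2, k3, k4⟩ := (h1'.and (h2.and (h3.and hv))).exists
  apply k1
  have k5 : (W j).valuation (∑ e, algebraMap E C (a j e) * (u e / u e0)) < 1 := by
    have k6 : ∑ e, algebraMap E C (a j e) * (u e / u e0) =
        (u e0)⁻¹ * ∑ e, algebraMap E C (a j e) * u e := by
      rw [Finset.mul_sum]
      refine Finset.sum_congr rfl fun e _ => ?_
      rw [div_eq_mul_inv]
      ring
    rw [k6, map_mul]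
    exact lt_of_le_of_lt (mul_le_of_le_one_left' (((W j).valuation_le_one_iff _).2 k3)) k4
  have k7 : (W j).valuation (∑ e, algebraMap E C (a j e) * (u e / u e0 - (r e : C))) < 1 := by
    refine Valuation.map_sum_lt _ one_ne_zero fun e _ => ?_
    rw [map_mul]
    exact lt_of_le_of_lt (mul_le_of_le_one_left' (((W j).valuation_le_one_iff _).2 (hE j _)))
      (k2 e)
  have k8 := Valuation.map_sub_lt _ k5 k7
  rw [← Finset.sum_sub_distrib] at k8
  have k9 : ∑ e, (algebraMap E C (a j e) * (u e / u e0) - algebraMap E C (a j e) *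
      (u e / u e0 - (r e : C))) = ∑ e, (r e : C) * algebraMap E C (a j e) := by
    refine Finset.sum_congr rfl fun e _ => ?_
    ring
  rw [k9] at k8
  obtain ⟨y, hy⟩ : ∑ e, (r e : C) * algebraMap E C (a j e) ∈ (algebraMap E C).fieldRange :=
    sum_mem fun e _ => mul_mem (hKr (r e).2) ⟨_, rfl⟩
  rw [← hy] at k8 ⊢
  by_contra h0
  have hy0 : y ≠ 0 := by
    rintro rfl
    exact h0 (map_zero _)
  have h10 := val_const (hE j) hy0
  rw [h10] at k8
  exact lt_irrefl _ k8

/-- every nonzero element is a unit of almost all the valuation rings -/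
theorem ev_unit_W {c : C} (hc : c ∈ acl (ad A {T})) (hc0 : c ≠ 0) :
    ∀ᶠ j in (U : Filter J), (W j).valuation c = 1 := by
  filter_upwards [ev_mem_W hA h hx hu0 hu hE hv hc,
    ev_mem_W hA h hx hu0 hu hE hv (Subfield.inv_mem _ hc)] with j h1 h2
  have h3 := ((W j).valuation_le_one_iff _).2 h1
  have h4 := ((W j).valuation_le_one_iff _).2 h2
  have h5 : (W j).valuation c ≠ 0 := (Valuation.ne_zero_iff _).2 hc0
  rw [map_inv₀] at h4
  exact le_antisymm h3 ((inv_le_one₀ (zero_lt_iff.2 h5)).1 h4)

end places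

end Pool.Agent.TWT
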