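import Pool.Agent.Helper10.TWT.A2

/-!
# Project TWT: the generic zero
-/

universe u v w

namespace Pool.Agent.TWT

open Polynomial Pool.Agent.LT Pool.Agent.Helper37.UL UL Pool.Agent.OPN Pool.Agent.OPG _root_.TW

section sub

/-- algebraic elements of a subfield -/
theorem alg_comap {C : Type u} [Field C] {K Cs : Subfield C} (hK : K ≤ Cs) {z : Cs}
    (hz : IsAlgebraic K (z : C)) : IsAlgebraic (K.comap Cs.subtype) z := by
  obtain ⟨n, c, hc, hc0, hcz⟩ := isAlgebraic_iff.mp hz
  refine isAlgebraic_iff.mpr ⟨n, fun i => ⟨c i, hK (hc i)⟩, fun i => hc i, ?_, ?_⟩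
  · intro h0
    apply hc0
    funext i
    exact congrArg Subtype.val (congrFun h0 i)
  · apply Cs.subtype.injective
    rw [map_zero, map_sum, ← hcz]
    refine Finset.sum_congr rfl fun i _ => ?_
    rw [map_mul, map_pow]
    rfl

/-- independence over the field generated by a transcendental element -/
theorem indep_ad {S : Type u} [Field S] {A : Subfield S} {m : ℕ} {x : Fin (m + 1) → S}
    (hx : AlgebraicIndependent A x) {τ : S} (hτ : Transcendental (gn A x) τ) :
    AlgebraicIndependent (ad A {τ}) x := by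
  have h1 : Transcendental (IntermediateField.adjoin A (Set.range x)) τ := by
    rw [← adjoin_toSubfield_gn] at hτ
    exact hτ
  have h2 : AlgebraicIndependent (IntermediateField.adjoin A {τ}).toSubfield x :=
    (ai_over hx h1).2
  exact indep_congr adjoin_ad h2

end sub

variable {E C : Type u} [Field E] [IsAlgClosed E] [CharZero E] [Field C] [IsAlgClosed C] [Algebra E C]
  {A : Subfield C} (hA : A ≤ (algebraMap E C).fieldRange) {T : C} {m : ℕ} {J : Type u}
  {U : Ultrafilter J} {S : Type u} [Field S] {π : (J → C) →+* S} (h : UP U π)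
  {a : J → Fin (m + 1) → E}
  (hx : AlgebraicIndependent (A.map (UP.cst π)) (xg π fun j e => algebraMap E C (a j e)))
  {u : Fin (m + 1) → C} (hu0 : u 0 = 1) (hu : ∀ e, u e ∈ acl (ad A {T}))

omit [IsAlgClosed E] [CharZero E] [IsAlgClosed C] in
theorem sum_germ (r : Fin (m + 1) → J → C) :
    ∑ e, xg π (fun j e => algebraMap E C (a j e)) e * π (r e) =
      π (fun j => ∑ e, algebraMap E C (a j e) * r e j) := by
  have h3 : (fun j => ∑ e, algebraMap E C (a j e) * r e j) =
      ∑ e, (fun j => algebraMap E C (a j e)) * r e := by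
    funext j
    simp only [Finset.sum_apply, Pi.mul_apply]
  rw [h3, map_sum]
  refine Finset.sum_congr rfl fun e _ => ?_
  rw [map_mul]
  rfl

omit [CharZero E] in
include hA h hx hu in
/-- the generic element of the linear system is not constant -/
theorem ev_transc (hT : Transcendental E T) {i₁ : Fin m} (hu1 : u i₁.succ = T) :
    ∀ᶠ j in (U : Filter J), Transcendental E (∑ e, algebraMap E C (a j e) * u e) := by
  classical
  have hSa : IsAlgClosed S := h.isAlgClosed
  set R : Subfield C := (algebraMap E C).fieldRange with hR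
  set x : Fin (m + 1) → S := xg π fun j e => algebraMap E C (a j e) with hxdef
  by_contra hcon
  rw [← Ultrafilter.eventually_not] at hcon
  -- the values are constants
  have h1 : ∀ᶠ j in (U : Filter J), ∑ e, algebraMap E C (a j e) * u e ∈ R := by
    filter_upwards [hcon] with j hj
    rw [Transcendental, not_not] at hj
    obtain ⟨e, he⟩ := minpoly.mem_range_of_degree_eq_one E _
      (IsAlgClosed.degree_eq_one_of_irreducible E (minpoly.irreducible hj.isIntegral))
    exact ⟨e, he⟩
  set D : Subfield S := h.fsub fun _ => R with hD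
  have h2 : ∑ e, x e * UP.cst π (u e) ∈ D := by
    have h3 := sum_germ (π := π) (a := a) (fun e _ => u e)
    have h4 : (π fun j => ∑ e, algebraMap E C (a j e) * u e) ∈ D :=
      (h.coe_mem_fsub (X := fun _ => R) _).2 h1
    rw [← h3] at h4
    exact h4
  have hxD : ∀ e, x e ∈ D := fun e => ⟨fun j => algebraMap E C (a j e), fun j => ⟨_, rfl⟩, rfl⟩
  have hAD : A.map (UP.cst π) ≤ D := by
    rintro _ ⟨z, hz, rfl⟩
    exact h.const_mem_fsub fun _ => hA hz
  have hTR : Transcendental R T := fun h0 => hT (Pool.Agent.TD.isAlgebraic_range_iff.1 h0)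
  have hTS : Transcendental D (UP.cst π T) := by
    have h3 := h.algIndV (A := fun _ => R) (τ := ![T])
      (fun _ => algebraicIndependent_unique_type_iff.2 hTR)
    exact algebraicIndependent_unique_type_iff.1 h3
  obtain ⟨σ, hσ, hσT⟩ := Pool.Agent.UT.exists_shift hTS
  have h3 : ∑ e, (σ (UP.cst π (u e)) - UP.cst π (u e)) * x e = 0 := by
    have h4 := hσ _ h2
    rw [map_sum] at h4
    rw [← sub_eq_zero, ← Finset.sum_sub_distrib] at h4
    rw [← h4]
    refine Finset.sum_congr rfl fun e _ => ?_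
    rw [map_mul, hσ _ (hxD e)]
    ring
  have hxB : AlgebraicIndependent (ad (A.map (UP.cst π)) {UP.cst π T}) x :=
    indep_ad hx (tr_mono (gn_le hAD hxD) hTS)
  refine lin_ne hxB (r := fun e => σ (UP.cst π (u e)) - UP.cst π (u e)) (fun e => ?_)
    (i₀ := i₁.succ) ?_ h3
  · have h5 : UP.cst π (u e) ∈ acl (ad (A.map (UP.cst π)) {UP.cst π T}) := by
      refine mem_acl.2 (alg_map' (UP.cst π) (fun y hy => ?_) (mem_acl.1 (hu e)))
      rw [← map_ad1]
      exact ⟨y, hy, rfl⟩
    have h6 : σ (UP.cst π (u e)) ∈ acl (ad (A.map (UP.cst π)) {UP.cst π T}) := by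
      refine mem_acl.2 (alg_map' (σ : S →+* S) (fun y hy => ?_) (mem_acl.1 h5))
      have h7 : ad (A.map (UP.cst π)) {UP.cst π T} ≤
          (ad (A.map (UP.cst π)) {UP.cst π T}).comap (σ : S →+* S) := by
        refine ad_le ?_ ?_
        · intro y hy
          change σ y ∈ ad (A.map (UP.cst π)) {UP.cst π T}
          rw [hσ y (hAD hy)]
          exact le_ad hy
        · intro y hy
          rw [Set.mem_singleton_iff.1 hy]
          change σ (UP.cst π T) ∈ ad (A.map (UP.cst π)) {UP.cst π T}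
          rw [hσT]
          exact Subfield.add_mem _ mem_adE (Subfield.one_mem _)
      exact h7 hy
    exact mem_acl.1 (Subfield.sub_mem _ h6 h5)
  · rw [hu1, hσT, add_sub_cancel_left]
    exact one_ne_zero

section iota

variable {W : J → ValuationSubring C} (hE : ∀ j, ∀ e : E, algebraMap E C e ∈ W j)
  {lam : ∀ j, W j →+* E}
  (hlam : ∀ j, ∀ (e : E) (he : algebraMap E C e ∈ W j), lam j ⟨_, he⟩ = e)
  (hlam0 : ∀ j, ∀ x : W j, lam j x = 0 ↔ (W j).valuation (x : C) < 1)
  {Cs : Subfield C} (hmem : ∀ c ∈ Cs, ∀ᶠ j in (U : Filter J), c ∈ W j)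

omit [IsAlgClosed E] [CharZero E] [IsAlgClosed C] in
include h hmem in
/-- the generic specialisation -/
theorem exists_iotaS : ∃ ι : Cs →+* S, ∀ c : Cs, ι c = π (lc W lam c) := by
  refine ⟨{ toFun := fun c => π (lc W lam c), map_one' := ?_, map_mul' := ?_, map_zero' := ?_,
            map_add' := ?_ }, fun c => rfl⟩
  · rw [← map_one π, h.eq_iff]
    filter_upwards with j
    change lc W lam (1 : C) j = _
    rw [lc_of_mem (one_mem (W j))]
    have h1 : (⟨1, one_mem (W j)⟩ : W j) = 1 := rfl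
    rw [h1, map_one, map_one]
    rfl
  · intro c d
    rw [← map_mul, h.eq_iff]
    filter_upwards [hmem c c.2, hmem d d.2] with j hc hd
    change lc W lam ((c : C) * d) j = _
    rw [Pi.mul_apply, lc_of_mem hc, lc_of_mem hd, lc_of_mem (mul_mem hc hd), ← map_mul, ← map_mul]
    rfl
  · rw [← map_zero π, h.eq_iff]
    filter_upwards with j
    change lc W lam (0 : C) j = _
    rw [lc_of_mem (zero_mem (W j))]
    have h1 : (⟨0, zero_mem (W j)⟩ : W j) = 0 := rfl
    rw [h1, map_zero, map_zero]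
    rfl
  · intro c d
    rw [← map_add, h.eq_iff]
    filter_upwards [hmem c c.2, hmem d d.2] with j hc hd
    change lc W lam ((c : C) + d) j = _
    rw [Pi.add_apply, lc_of_mem hc, lc_of_mem hd, lc_of_mem (add_mem hc hd), ← map_add, ← map_add]
    rfl

variable {ι : Cs →+* S} (hι : ∀ c : Cs, ι c = π (lc W lam c))

omit [IsAlgClosed E] [CharZero E] [IsAlgClosed C] in
include h hE hlam hι in
/-- constants -/
theorem iota_const {c : Cs} (hc : (c : C) ∈ (algebraMap E C).fieldRange) :
    ι c = UP.cst π (c : C) := by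
  obtain ⟨e, he⟩ := hc
  rw [hι, UP.cst_apply, h.eq_iff]
  refine Filter.Eventually.of_forall fun j => ?_
  have h1 : ∀ (z : C) (hz : z ∈ W j), z = algebraMap E C e → lam j ⟨z, hz⟩ = e := by
    intro z hz hze
    subst hze
    exact hlam j _ _
  have h2 : (c : C) ∈ W j := by
    rw [← he]
    exact hE j e
  rw [lc_of_mem h2, h1 _ h2 he.symm, he]

omit [IsAlgClosed E] [CharZero E] [IsAlgClosed C] in
include hι in
theorem sum_iotaS (c : Fin (m + 1) → Cs) :
    ∑ e, xg π (fun j e => algebraMap E C (a j e)) e * ι (c e) =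
      π (fun j => ∑ e, algebraMap E C (a j e) * lc W lam (c e) j) := by
  rw [← sum_germ (π := π) (a := a) (fun e => lc W lam (c e))]
  refine Finset.sum_congr rfl fun e _ => ?_
  rw [hι]

variable (hv : ∀ᶠ j in (U : Filter J), (W j).valuation (∑ e, algebraMap E C (a j e) * u e) < 1)
  (huC : ∀ e, u e ∈ Cs)

omit [IsAlgClosed E] [CharZero E] [IsAlgClosed C] in
include h hE hlam hlam0 hmem hu0 hv hι in
/-- the relation of the generic coefficients -/
theorem rel_S : xg π (fun j e => algebraMap E C (a j e)) 0 +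
    ∑ i : Fin m, xg π (fun j e => algebraMap E C (a j e)) i.succ * ι ⟨u i.succ, huC _⟩ = 0 := by
  have h1 := sum_iotaS (a := a) hι (fun e => ⟨u e, huC e⟩)
  have h0 : (⟨u 0, huC 0⟩ : Cs) = 1 := Subtype.ext hu0
  rw [Fin.sum_univ_succ, h0, map_one, mul_one] at h1
  rw [h1, h.eq0]
  filter_upwards [hv, Filter.eventually_all.2 fun e => hmem (u e) (huC e)] with j h2 h3
  have hs : ∑ e, algebraMap E C (a j e) * u e ∈ W j := ((W j).valuation_le_one_iff _).1 h2.le
  have h4 := lc_sum (F := E) (vv := a) hE hlam h3 hs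
  rw [(hlam0 j ⟨_, hs⟩).2 h2, map_zero] at h4
  exact h4

variable (hACs : ad A {T} ≤ Cs)

omit [IsAlgClosed E] [CharZero E] [IsAlgClosed C] in
include hA h hE hlam hι in
/-- the image of a field generated by constants -/
theorem iota_ad {X : Set C} (hX : ad A X ≤ Cs) (y : Cs) (hy : (y : C) ∈ ad A X) :
    ι y ∈ ad (A.map (UP.cst π)) (ι '' {z | (z : C) ∈ X}) := by
  have h1 : ad A X ≤ ((ad (A.map (UP.cst π)) (ι '' {z | (z : C) ∈ X})).comap ι).map Cs.subtype := by
    refine ad_le ?_ ?_
    · intro z hz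
      refine ⟨⟨z, hX (le_ad hz)⟩, ?_, rfl⟩
      change ι (⟨z, hX (le_ad hz)⟩ : Cs) ∈ ad (A.map (UP.cst π)) (ι '' {z | (z : C) ∈ X})
      rw [iota_const h hE hlam hι (hA hz)]
      exact le_ad ⟨z, hz, rfl⟩
    · intro z hz
      refine ⟨⟨z, hX (mem_ad hz)⟩, ?_, rfl⟩
      exact mem_ad ⟨⟨z, hX (mem_ad hz)⟩, hz, rfl⟩
  obtain ⟨y', hy', h2⟩ := h1 hy
  have h3 : y' = y := Subtype.ext h2
  rw [← h3]
  exact hy'

omit [IsAlgClosed E] [CharZero E] [IsAlgClosed C] in
include hA h hE hlam hι in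
theorem alg_iotaS {c : Cs} (hc : IsAlgebraic (ad A {T}) (c : C)) :
    IsAlgebraic (ad (A.map (UP.cst π)) {ι ⟨T, hACs mem_adE⟩}) (ι c) := by
  refine alg_map' ι (fun y hy => ?_) (alg_comap hACs hc)
  refine (ad_mono le_rfl ?_) (iota_ad hA h hE hlam hι hACs y hy)
  rintro _ ⟨z, hz, rfl⟩
  rw [Set.mem_singleton_iff]
  congr 1
  exact Subtype.ext hz

variable (hCs : Cs ≤ acl (ad A {T}))

omit [IsAlgClosed E] [CharZero E] [IsAlgClosed C] in
include hA h hx hE hlam hlam0 hmem hu0 hv hι hCs in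
/-- generic linear combinations do not vanish at the generic zero -/
theorem ev_sum_ne {c : Fin (m + 1) → C} (hc : ∀ e, c e ∈ Cs) {i₀ : Fin m}
    (hi₀ : c i₀.succ - u i₀.succ * c 0 ≠ 0) (huC : ∀ e, u e ∈ Cs) (hACs : ad A {T} ≤ Cs) :
    ∀ᶠ j in (U : Filter J), ∑ e, algebraMap E C (a j e) * lc W lam (c e) j ≠ 0 := by
  by_contra hcon
  rw [← Ultrafilter.eventually_not] at hcon
  set x : Fin (m + 1) → S := xg π fun j e => algebraMap E C (a j e) with hxdef
  have h1 : ∑ e, x e * ι ⟨c e, hc e⟩ = 0 := by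
    rw [sum_iotaS (a := a) hι (fun e => ⟨c e, hc e⟩), h.eq0]
    filter_upwards [hcon] with j hj
    push Not at hj
    exact hj
  have hrel : x 0 + ∑ i : Fin m, x i.succ * ι ⟨u i.succ, huC _⟩ = 0 :=
    rel_S h hu0 hE hlam hlam0 hmem hι hv huC
  have halg : ∀ z : Cs, IsAlgebraic (IntermediateField.adjoin (A.map (UP.cst π))
      {ι ⟨T, hACs mem_adE⟩}) (ι z) := fun z =>
    alg_adjoin_iff.2 (alg_iotaS hA h hE hlam hι hACs (mem_acl.1 (hCs z.2)))
  refine sum_ne_W hx hrel (τ := ι ⟨T, hACs mem_adE⟩) (fun i => halg _)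
    (e := fun i => ι (⟨c i.succ, hc _⟩ - ⟨u i.succ, huC _⟩ * ⟨c 0, hc 0⟩)) (fun i => halg _)
    (i₀ := i₀) ?_ ?_
  · rw [_root_.map_ne_zero]
    intro h0
    exact hi₀ (congrArg Subtype.val h0)
  · rw [Fin.sum_univ_succ, eq_neg_of_add_eq_zero_left hrel] at h1
    rw [← h1, neg_mul, Finset.sum_mul, ← sub_eq_neg_add, ← Finset.sum_sub_distrib]
    refine Finset.sum_congr rfl fun i _ => ?_
    rw [map_sub, map_mul]
    ring

end iota

end Pool.Agent.TWT
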