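import Pool.Agent.Helper10.TWT.A3
import Pool.Agent.Helper13.PL.NF4

/-!
# Project TWT: residues of elements outside the field of definition
-/

universe u v w

namespace Pool.Agent.TWT

open Polynomial Pool.Agent.LT Pool.Agent.Helper37.UL UL Pool.Agent.OPN Pool.Agent.OPG _root_.TW

section germs

variable {C : Type u} [Field C] {J : Type u} {U : Ultrafilter J} {S : Type u} [Field S]
  {π : (J → C) →+* S} (h : UP U π)

include h in
/-- germs with values in algebraic extensions -/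
theorem fsub_ad {Y : J → Subfield C} {f : J → C} (hf : IsAlgebraic (h.fsub Y) (π f)) :
    h.fsub (fun j => ad (Y j) {f j}) ≤ ad (h.fsub Y) {π f} := by
  classical
  rintro _ ⟨y, hy, rfl⟩
  obtain ⟨n, c, hc, hc0, hcf⟩ := isAlgebraic_iff.mp hf
  obtain ⟨g, hg, hgc⟩ := h.lift_familyV hc
  obtain ⟨i₀, hi₀⟩ : ∃ i, c i ≠ 0 := by
    by_contra hcon
    push Not at hcon
    exact hc0 (funext hcon)
  have h1 : ∀ᶠ j in (U : Filter J), g i₀ j ≠ 0 := by
    rw [← h.ne0, hgc]
    exact hi₀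
  have h2 : ∀ᶠ j in (U : Filter J), ∑ i, g i j * f j ^ (i : ℕ) = 0 := by
    have h3 : π (fun j => ∑ i, g i j * f j ^ (i : ℕ)) = 0 := by
      have h4 : (fun j => ∑ i, g i j * f j ^ (i : ℕ)) = ∑ i, g i * f ^ (i : ℕ) := by
        funext j
        simp only [Finset.sum_apply, Pi.mul_apply, Pi.pow_apply]
      rw [h4, map_sum, ← hcf]
      refine Finset.sum_congr rfl fun i _ => ?_
      rw [map_mul, map_pow, hgc]
    exact (h.eq0 _).1 h3
  have h3 : ∀ᶠ j in (U : Filter J), ∃ r : Fin (n + 1) → C, (∀ i, r i ∈ Y j) ∧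
      y j = ∑ i, r i * f j ^ (i : ℕ) := by
    filter_upwards [h1, h2] with j h1 h2
    set p : (Y j)[X] := ∑ i : Fin (n + 1), Polynomial.C (⟨g i j, hg i j⟩ : Y j) * X ^ (i : ℕ) with hp
    have hp0 : p ≠ 0 := by
      intro h0
      apply h1
      have h5 := congrArg (fun q => q.coeff i₀) h0
      simp only [hp, finsetSum_coeff, coeff_C_mul, coeff_X_pow, coeff_zero] at h5
      rw [Finset.sum_eq_single i₀] at h5
      · simp only [if_true, mul_one] at h5
        exact congrArg Subtype.val h5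
      · intro l _ hl
        rw [if_neg, mul_zero]
        intro h6
        exact hl (Fin.ext h6.symm)
      · intro h6
        exact absurd (Finset.mem_univ _) h6
    have hpf : aeval (f j) p = 0 := by
      rw [← h2, hp, map_sum]
      refine Finset.sum_congr rfl fun i _ => ?_
      rw [map_mul, aeval_C, map_pow, aeval_X]
      rfl
    have hpd : p.natDegree ≤ n + 1 := by
      rw [hp]
      refine natDegree_sum_le_of_forall_le _ _ fun i _ => ?_
      exact (natDegree_C_mul_X_pow_le _ _).trans i.2.le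
    obtain ⟨P, hP, hP'⟩ := exists_small hp0 hpf hpd (mem_adjoin_iff.2 (hy j))
    refine ⟨fun i => P.coeff i, fun i => (P.coeff i).2, ?_⟩
    rw [hP', aeval_eq_sum_range' hP, Finset.sum_range]
    refine Finset.sum_congr rfl fun i _ => ?_
    rw [Algebra.smul_def]
    rfl
  obtain ⟨r, hr⟩ := h3.choice
  have h4 : π y = ∑ i : Fin (n + 1), π (fun j => r j i) * π f ^ (i : ℕ) := by
    have h5 : π y = π (fun j => ∑ i, r j i * f j ^ (i : ℕ)) := by
      rw [h.eq_iff]
      filter_upwards [hr] with j hj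
      exact hj.2
    have h6 : (fun j => ∑ i, r j i * f j ^ (i : ℕ)) =
        ∑ i : Fin (n + 1), (fun j => r j i) * f ^ (i : ℕ) := by
      funext j
      simp only [Finset.sum_apply, Pi.mul_apply, Pi.pow_apply]
    rw [h5, h6, map_sum]
    refine Finset.sum_congr rfl fun i _ => ?_
    rw [map_mul, map_pow]
  rw [h4]
  refine Subfield.sum_mem _ fun i _ => Subfield.mul_mem _ (le_ad ?_) (Subfield.pow_mem _ mem_adE _)
  rw [h.coe_mem_fsub]
  filter_upwards [hr] with j hj
  exact hj.1 i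

theorem ad_pair {S : Type*} [Field S] {K : Subfield S} {x y : S} : ad K {x, y} = ad (ad K {x}) {y} := by
  rw [ad_ad, Set.singleton_union]

include h in
/-- germs with values in algebraic extensions generated by two elements -/
theorem fsub_ad2 {Y : J → Subfield C} {f g : J → C} (hf : IsAlgebraic (h.fsub Y) (π f))
    (hg : IsAlgebraic (ad (h.fsub Y) {π f}) (π g)) :
    h.fsub (fun j => ad (Y j) {f j, g j}) ≤ ad (h.fsub Y) {π f, π g} := by
  have h1 : ad (h.fsub Y) {π f} ≤ h.fsub (fun j => ad (Y j) {f j}) := by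
    refine ad_le ?_ ?_
    · rintro _ ⟨y, hy, rfl⟩
      exact ⟨y, fun j => le_ad (hy j), rfl⟩
    · intro y hy
      rw [Set.mem_singleton_iff.1 hy]
      exact ⟨f, fun j => mem_adE, rfl⟩
  have h2 := fsub_ad h (Y := fun j => ad (Y j) {f j}) (f := g) (isAlgebraic_mono h1 hg)
  have h3 := fsub_ad h hf
  have h4 : h.fsub (fun j => ad (Y j) {f j, g j}) = h.fsub (fun j => ad (ad (Y j) {f j}) {g j}) := by
    congr 1
    funext j
    exact ad_pair
  rw [h4, ad_pair]
  exact h2.trans (ad_mono h3 le_rfl)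

end germs

variable {E C : Type u} [Field E] [IsAlgClosed E] [CharZero E] [Field C] [IsAlgClosed C] [Algebra E C]
  {A : Subfield C} (hA : A ≤ (algebraMap E C).fieldRange) {T : C} {m : ℕ} {J : Type u}
  {U : Ultrafilter J} {S : Type u} [Field S] {π : (J → C) →+* S} (h : UP U π)
  {a : J → Fin (m + 1) → E}
  (hx : AlgebraicIndependent (A.map (UP.cst π)) (xg π fun j e => algebraMap E C (a j e)))
  {u : Fin (m + 1) → C} (hu0 : u 0 = 1)
  {W : J → ValuationSubring C} (hE : ∀ j, ∀ e : E, algebraMap E C e ∈ W j)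
  {lam : ∀ j, W j →+* E}
  (hlam : ∀ j, ∀ (e : E) (he : algebraMap E C e ∈ W j), lam j ⟨_, he⟩ = e)
  (hlam0 : ∀ j, ∀ x : W j, lam j x = 0 ↔ (W j).valuation (x : C) < 1)
  {Cs : Subfield C} (hmem : ∀ c ∈ Cs, ∀ᶠ j in (U : Filter J), c ∈ W j)
  {ι : Cs →+* S} (hι : ∀ c : Cs, ι c = π (lc W lam c))
  (hv : ∀ᶠ j in (U : Filter J), (W j).valuation (∑ e, algebraMap E C (a j e) * u e) < 1)
  (hCs : Cs ≤ acl (ad A {T})) (hACs : ad A {T} ≤ Cs) (hKCs : acl A ≤ Cs) {Fv : J → Subfield C}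
  (hAFv : ∀ j, A ≤ Fv j) (haFv : ∀ j e, algebraMap E C (a j e) ∈ Fv j)
  (hwr : ∀ z ∈ h.fsub Fv,
    IsAlgebraic (gn (A.map (UP.cst π)) (xg π fun j e => algebraMap E C (a j e))) z →
    z ∈ gn ((acl A).map (UP.cst π)) (xg π fun j e => algebraMap E C (a j e)))
  {q : C} (hq : q ∈ Cs) (hu : ∀ e, u e ∈ ad A {T, q})

include hA hx hu0 hE hlam hlam0 hmem hι hv hCs hACs hKCs hAFv haFv hwr hq hu in
/-- **Residues of elements outside the field of definition.** -/
theorem ev_notMem {b : C} (hb : b ∈ Cs) (hbK : ∀ᶠ j in (U : Filter J), b ∉ ad (Fv j) {T, q}) :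
    ∀ᶠ j in (U : Filter J), lc W lam b j ∉ ad (Fv j) {lc W lam T j, lc W lam q j} := by
  classical
  by_contra hcon
  rw [← Ultrafilter.eventually_not] at hcon
  have hSa : IsAlgClosed S := h.isAlgClosed
  have hC0 : CharZero C := charZero_of_injective_algebraMap (algebraMap E C).injective
  have hS0 : CharZero S := h.charZero
  set x : Fin (m + 1) → S := xg π fun j e => algebraMap E C (a j e) with hxdef
  set D : Subfield S := h.fsub Fv with hD
  set AS : Subfield S := A.map (UP.cst π) with hAS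
  have hTCs : T ∈ Cs := hACs mem_adE
  have hTq : ad A {T, q} ≤ Cs := by
    rw [ad_pair]
    refine ad_le hACs ?_
    intro z hz
    rw [Set.mem_singleton_iff.1 hz]
    exact hq
  have huC : ∀ e, u e ∈ Cs := fun e => hTq (hu e)
  obtain ⟨τ, hτ⟩ : ∃ τ : S, τ = ι ⟨T, hTCs⟩ := ⟨_, rfl⟩
  obtain ⟨l, hl⟩ : ∃ l : S, l = ι ⟨q, hq⟩ := ⟨_, rfl⟩
  have hτ' : τ = π (lc W lam T) := by rw [hτ, hι]
  have hl' : l = π (lc W lam q) := by rw [hl, hι]
  have hal : ∀ z : Cs, IsAlgebraic (ad AS {τ}) (ι z) := fun z => by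
    rw [hτ]
    exact alg_iotaS hA h hE hlam hι hACs (mem_acl.1 (hCs z.2))
  have hrel : x 0 + ∑ i : Fin m, x i.succ * ι ⟨u i.succ, huC _⟩ = 0 :=
    rel_S h hu0 hE hlam hlam0 hmem hι hv huC
  have hAD : AS ≤ D := by
    rintro _ ⟨z, hz, rfl⟩
    exact h.const_mem_fsub fun j => hAFv j hz
  have hxD : ∀ e, x e ∈ D := fun e => ⟨fun j => algebraMap E C (a j e), fun j => haFv j e, rfl⟩
  have hAlS : ∀ z : Cs, (z : C) ∈ ad A {T, q} → ι z ∈ ad AS {τ, l} := by
    intro z hz
    refine (ad_mono le_rfl ?_) (iota_ad hA h hE hlam hι hTq z hz)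
    rintro _ ⟨y, hy, rfl⟩
    rcases hy with hy | hy
    · left
      rw [hτ]
      congr 1
      exact Subtype.ext hy
    · right
      rw [Set.mem_singleton_iff, hl]
      congr 1
      exact Subtype.ext (Set.mem_singleton_iff.1 hy)
  -- algebraicity
  have hτx : IsAlgebraic (gn AS x) τ := by
    have h1 := _root_.TW.tau_alg_W hx hrel (τ := τ) fun i => alg_adjoin_iff.2 (hal _)
    rw [← adjoin_toSubfield_gn]
    exact h1
  have hgD : gn AS x ≤ D := gn_le hAD hxD
  -- the residue of `b`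
  have h1 : ι ⟨b, hb⟩ ∈ ad D {τ, l} := by
    rw [hτ', hl']
    refine fsub_ad2 h ?_ ?_ ?_
    · rw [← hτ']
      exact isAlgebraic_mono hgD hτx
    · rw [← hτ', ← hl', hl]
      exact isAlgebraic_mono (ad_mono hAD le_rfl) (hal _)
    · rw [hι, h.coe_mem_fsub]
      filter_upwards [hcon] with j hj
      exact not_not.1 hj
  have h2 : ι ⟨b, hb⟩ ∈ ad (D ⊓ acl AS) {τ, l} := by
    refine desc3 hx hAD hxD (fun z hz hza => ?_) (fun i => hAlS _ (hu _)) ?_ hrel (hal _) h1
    · have h3 := hwr z hz hza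
      refine gn_mono ?_ h3
      rintro _ ⟨y, hy, rfl⟩
      exact mem_acl.2 (alg_map' (L := AS) (UP.cst π) (fun w hw => ⟨w, hw, rfl⟩) (mem_acl.1 hy))
    · rw [hl]
      exact hal _
  -- back to `C`
  let D₀ : Subfield C := (D.comap (UP.cst π)) ⊓ acl A
  have hKr : acl A ≤ (algebraMap E C).fieldRange := acl_range hA
  have hD₀Cs : D₀ ≤ Cs := inf_le_right.trans hKCs
  have hD₀2 : ad D₀ {T, q} ≤ Cs := by
    refine ad_le hD₀Cs ?_
    rintro z (hz | hz)
    · rw [hz]
      exact hTCs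
    · rw [Set.mem_singleton_iff.1 hz]
      exact hq
  have h3 : ad (D ⊓ acl AS) {τ, l} ≤ ((ad D₀ {T, q}).comap Cs.subtype).map ι := by
    refine ad_le ?_ ?_
    · intro z hz
      have h4 : z ∈ (acl A).map (UP.cst π) := by
        refine PL.map_closed (fun x hx => acl_closed hx) (UP.cst π)
          (isAlgebraic_mono ?_ (mem_acl.1 hz.2))
        rintro _ ⟨w, hw, rfl⟩
        exact ⟨w, le_acl hw, rfl⟩
      obtain ⟨w, hw, rfl⟩ := h4
      have hw0 : w ∈ D₀ := ⟨hz.1, hw⟩
      refine ⟨⟨w, hKCs hw⟩, ?_, ?_⟩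
      · change w ∈ ad D₀ {T, q}
        exact le_ad hw0
      · exact iota_const h hE hlam hι (hKr hw)
    · rintro z (hz | hz)
      · refine ⟨⟨T, hTCs⟩, ?_, ?_⟩
        · change T ∈ ad D₀ {T, q}
          exact mem_ad (Or.inl rfl)
        · rw [hz, hτ]
      · refine ⟨⟨q, hq⟩, ?_, ?_⟩
        · change q ∈ ad D₀ {T, q}
          exact mem_ad (Or.inr rfl)
        · rw [Set.mem_singleton_iff.1 hz, hl]
  obtain ⟨y, hy, hyb⟩ := h3 h2
  have h4 : y = ⟨b, hb⟩ := ι.injective hyb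
  have h5 : b ∈ ad D₀ {T, q} := by
    rw [h4] at hy
    exact hy
  have h6 : ad D₀ {T, q} ≤ (h.fsub fun j => ad (Fv j) {T, q}).comap (UP.cst π) := by
    refine ad_le ?_ ?_
    · intro w hw
      have h7 : UP.cst π w ∈ h.fsub Fv := hw.1
      have h8 := (h.coe_mem_fsub (X := Fv) fun _ => w).1 h7
      refine (h.coe_mem_fsub (X := fun j => ad (Fv j) {T, q}) fun _ => w).2 ?_
      filter_upwards [h8] with j hj
      exact le_ad hj
    · intro w hw
      exact h.const_mem_fsub fun j => mem_ad hw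
  have h7 := (h.coe_mem_fsub (X := fun j => ad (Fv j) {T, q}) fun _ => b).1 (h6 h5)
  obtain ⟨j, hj1, hj2⟩ := (h7.and hbK).exists
  exact hj2 hj1

end Pool.Agent.TWT
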