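import Pool.Agent.Helper10.TWT.A4
import Pool.Agent.Helper37.TW.W5

/-!
# Project TWT: automorphisms in the decomposition group
-/

universe u v w

namespace Pool.Agent.TWT

open Polynomial Pool.Agent.LT Pool.Agent.Helper37.UL UL Pool.Agent.OPN Pool.Agent.OPG _root_.TW

/-- **An automorphism in the decomposition group which moves `b`.** -/
theorem exists_gammaS {E C : Type u} [Field E] [IsAlgClosed E] [CharZero E] [Field C] [IsAlgClosed C]
    [Algebra E C] {T θ : C} {τ : E} {W : ValuationSubring C} (hb : Base E W (T - algebraMap E C τ))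
    (hTtr : Transcendental E T) (halg : ∀ z : C, IsAlgebraic (IntermediateField.adjoin E {T}) z)
    {lam : W →+* E} (hlam : ∀ (e : E) (he : algebraMap E C e ∈ W), lam ⟨_, he⟩ = e)
    (hlam0 : ∀ x : W, lam x = 0 ↔ W.valuation (x : C) < 1) {A : Subfield C}
    {G : A[X][X]} (hG : ev2 A T θ G = 0) (hG' : W.valuation (ev2 A T θ (derivative G)) = 1)
    (hθ : θ ∈ W) {b : C} (hbW : b ∈ W) {Fv : Subfield C} (hAFv : A ≤ Fv)
    (hFv : Fv ≤ (algebraMap E C).fieldRange)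
    (hnot : algebraMap E C (lam ⟨b, hbW⟩) ∉
      ad Fv {algebraMap E C τ, algebraMap E C (lam ⟨θ, hθ⟩)}) :
    ∃ γ : C ≃+* C, (∀ z ∈ ad Fv {T, θ}, γ z = z) ∧ (∀ z, γ z ∈ W ↔ z ∈ W) ∧ γ b ≠ b := by
  have hE := hb.const
  have hT : W.valuation (T - algebraMap E C τ) < 1 := (W.mem_nonunits_iff).1 hb.t_mem
  have hTW := mem_O hE hT
  set K1 : Subfield E := (ad Fv {algebraMap E C τ, algebraMap E C (lam ⟨θ, hθ⟩)}).comap
    (algebraMap E C) with hK1
  obtain ⟨σ, hσK, hσ⟩ : ∃ σ : E ≃+* E, (∀ y ∈ K1, σ y = y) ∧ σ (lam ⟨b, hbW⟩) ≠ lam ⟨b, hbW⟩ := by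
    by_contra hcon
    push Not at hcon
    exact hnot (Pool.Agent.UT.mem_of_fixed' (k := K1) (x := lam ⟨b, hbW⟩) fun σ hσ => hcon σ hσ)
  have hστ : σ τ = τ := hσK _ (mem_ad (Or.inl rfl))
  have hσl : σ (lam ⟨θ, hθ⟩) = lam ⟨θ, hθ⟩ := hσK _ (mem_ad (Or.inr rfl))
  obtain ⟨γ, hγ1, hγ2, hγ3⟩ := exists_gamma0 hb hTtr halg σ hστ
  have hγF : ∀ r ∈ Fv, γ r = r := by
    intro r hr
    obtain ⟨e, rfl⟩ := hFv hr
    rw [hγ2, hσK e (le_ad hr)]
  have hγA : ∀ r : A, γ (algebraMap A C r) = algebraMap A C r := fun r => hγF r (hAFv r.2)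
  have hAW : ∀ r : A, algebraMap A C r ∈ W := by
    intro r
    obtain ⟨e, he⟩ := hFv (hAFv r.2)
    change (r : C) ∈ W
    rw [← he]
    exact hE e
  have hcong : ∀ z : W, W.valuation (γ z - algebraMap E C (σ (lam z))) < 1 := by
    intro z
    have h1 := val_lt_of_mem_iff hγ1 (lam_sub hE hlam hlam0 z)
    rw [map_sub, hγ2] at h1
    exact h1
  have hγθ : γ θ = θ := by
    refine root_unique (R := A) hAW hTW hθ hG hG' ?_ ?_
    · have h1 := map_ev2 (γ : C →+* C) hγA T θ G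
      rw [hG, map_zero] at h1
      rw [h1]
      congr 1
      exact congrArg₂ _ hγ3.symm rfl
    · have h1 := hcong ⟨θ, hθ⟩
      rw [hσl] at h1
      have h2 := lam_sub hE hlam hlam0 ⟨θ, hθ⟩
      have h3 := Valuation.map_sub_lt _ h1 h2
      rwa [sub_sub_sub_cancel_right] at h3
  refine ⟨γ, ?_, hγ1, ?_⟩
  · have h1 : ad Fv {T, θ} ≤ (γ : C →+* C).eqLocusField (RingHom.id C) := by
      refine ad_le hγF ?_
      rintro y (hy | hy)
      · rw [hy]
        exact hγ3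
      · rw [Set.mem_singleton_iff.1 hy]
        exact hγθ
    exact fun z hz => h1 hz
  · intro h0
    apply hσ
    have h1 := hcong ⟨b, hbW⟩
    rw [show γ ((⟨b, hbW⟩ : W) : C) = b from h0] at h1
    exact (lam_eq hE hlam hlam0 (z := ⟨b, hbW⟩) h1).symm

end Pool.Agent.TWT
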