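import Pool.Agent.Helper37.TWU.K

/-!
# Project TWT: the residue field of a place is finite
-/

universe u

namespace Pool.Agent.TWT

open VC Polynomial Pool.Agent.TW Pool.Agent.TWU

/-- residues of rational functions in an element of the maximal ideal -/
theorem res_simple {k F : Type u} [Field k] [CharZero k] [Field F] [Algebra k F] (P : Place k F)
    {t : F} (ht : t ∈ P.ring.nonunits) {z : F} (hz : z ∈ IntermediateField.adjoin k {t})
    (hzP : z ∈ P.ring) : ∃ c : k, z - algebraMap k F c ∈ P.ring.nonunits := by
  classical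
  have h0 : (0 : F) ∈ P.ring.nonunits := (ValuationSubring.mem_nonunits_iff_or _).2 (Or.inl rfl)
  have h1 : (1 : F) ∉ P.ring.nonunits := by
    rw [ValuationSubring.mem_nonunits_iff, map_one]
    exact lt_irrefl _
  obtain ⟨r, s, hrs⟩ := (IntermediateField.mem_adjoin_simple_iff k z).1 hz
  by_cases hst : aeval t s = 0
  · refine ⟨0, ?_⟩
    rw [hrs, hst, div_zero, map_zero, sub_zero]
    exact h0
  have hs0 : s ≠ 0 := by
    rintro rfl
    exact hst (map_zero _)
  set d := GCDMonoid.gcd r s with hd
  have hd0 : d ≠ 0 := fun h => hs0 ((gcd_eq_zero_iff r s).1 h).2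
  have hr : d * (r / d) = r := EuclideanDomain.mul_div_cancel' hd0 (GCDMonoid.gcd_dvd_left r s)
  have hs : d * (s / d) = s := EuclideanDomain.mul_div_cancel' hd0 (GCDMonoid.gcd_dvd_right r s)
  have hco : IsCoprime (r / d) (s / d) := isCoprime_div_gcd_div_gcd hs0
  set r' := r / d with hr'
  set s' := s / d with hs'
  have hdt : aeval t d ≠ 0 := by
    intro h
    apply hst
    rw [← hs, map_mul, h, zero_mul]
  have hs't : aeval t s' ≠ 0 := by
    intro h
    apply hst
    rw [← hs, map_mul, h, mul_zero]
  have hzz : z * aeval t s' = aeval t r' := by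
    rw [hrs, ← hr, ← hs, map_mul, map_mul]
    field_simp
  have ht' : t - algebraMap k F 0 ∈ P.ring.nonunits := by
    rw [map_zero, sub_zero]
    exact ht
  have htP : t ∈ P.ring := ValuationSubring.nonunits_subset ht
  have er := aeval_sub_mem P.ring P.algebraMap_mem ht' r'
  have es := aeval_sub_mem P.ring P.algebraMap_mem ht' s'
  obtain ⟨a, b, hab⟩ := hco
  have hsn : aeval t s' ∉ P.ring.nonunits := by
    intro h
    apply h1
    have h2 : aeval t r' ∈ P.ring.nonunits := by
      rw [← hzz, mul_comm]
      exact nonunit_mul h hzP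
    have h3 := congrArg (aeval t) hab
    rw [map_add, map_mul, map_mul, map_one] at h3
    rw [← h3, mul_comm, mul_comm (aeval t b)]
    exact nonunit_add (nonunit_mul h2 (aeval_mem_ring P htP a))
      (nonunit_mul h (aeval_mem_ring P htP b))
  have hs00 : s'.eval 0 ≠ 0 := by
    intro h
    rw [h, map_zero, sub_zero] at es
    exact hsn es
  refine ⟨r'.eval 0 / s'.eval 0, ?_⟩
  have hsF : algebraMap k F (s'.eval 0) ≠ 0 := (_root_.map_ne_zero _).2 hs00
  have h4 : z - algebraMap k F (r'.eval 0 / s'.eval 0) =
      ((aeval t r' - algebraMap k F (r'.eval 0)) - z * (aeval t s' - algebraMap k F (s'.eval 0))) *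
        algebraMap k F (s'.eval 0)⁻¹ := by
    rw [← hzz, map_div₀, map_inv₀]
    field_simp
    ring
  rw [h4]
  refine nonunit_mul (nonunit_sub er ?_) (P.algebraMap_mem _)
  rw [mul_comm]
  exact nonunit_mul es hzP

/-- **The residue field of a place is generated by the residue of one element.** -/
theorem exists_theta_all {k F : Type u} [Field k] [CharZero k] [Field F] [Algebra k F]
    (hF : IsFunctionField k F) (P : Place k F) :
    ∃ θ ∈ P.ring, ∃ q : k[X], Irreducible q ∧ aeval θ q ∈ P.ring.nonunits ∧
      ∀ z ∈ P.ring, ∃ h : k[X], z - aeval θ h ∈ P.ring.nonunits := by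
  classical
  obtain ⟨π, hπ0, hπ1⟩ := exists_unif hF P
  have hπ : π ∈ P.ring.nonunits := (nonunit_iff_ord hF P hπ0).2 (by omega)
  have htr : Transcendental k π := transc_of_nonunit P hπ0 hπ
  have hfin := hF.finiteDimensional htr
  let iR : Algebra k P.ring :=
    ((algebraMap k F).codRestrict P.ring.toSubring P.algebraMap_mem).toAlgebra
  have sR : IsScalarTower k P.ring F := IsScalarTower.of_algebraMap_eq fun _ => rfl
  let κ := IsLocalRing.ResidueField P.ring
  let iκ : Algebra k κ := ((IsLocalRing.residue P.ring).comp (algebraMap k P.ring)).toAlgebra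
  have sκ : IsScalarTower k P.ring κ := IsScalarTower.of_algebraMap_eq fun _ => rfl
  have hres : ∀ r : P.ring, IsLocalRing.residue P.ring r = 0 ↔ (r : F) ∈ P.ring.nonunits := by
    intro r
    rw [IsLocalRing.residue_eq_zero_iff, ValuationSubring.mem_nonunits_iff_exists_mem_maximalIdeal]
    exact ⟨fun h => ⟨r.2, h⟩, fun ⟨_, h⟩ => h⟩
  have hsm : ∀ (a : k) (x : κ), a • x = IsLocalRing.residue P.ring (algebraMap k P.ring a) * x :=
    fun a x => Algebra.smul_def a x
  choose r hr using fun z : κ => IsLocalRing.residue_surjective (R := P.ring) z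
  have hcard : ∀ s : Finset κ, LinearIndependent k (fun i : s => (i : κ)) →
      s.card ≤ Module.finrank (IntermediateField.adjoin k {π}) F := by
    intro s hs
    have hlin : LinearIndependent (IntermediateField.adjoin k {π}) (fun i : s => (r i : F)) := by
      rw [Fintype.linearIndependent_iff]
      by_contra hcon
      push Not at hcon
      obtain ⟨g, hg, i₀, hi₀⟩ := hcon
      obtain ⟨i₁, -, hi₁⟩ := Finset.exists_max_image (Finset.univ : Finset s)
        (fun i => P.ring.valuation (g i : F)) ⟨i₀, Finset.mem_univ _⟩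
      have hg1 : (g i₁ : F) ≠ 0 := by
        intro h
        have h2 := hi₁ i₀ (Finset.mem_univ _)
        rw [h, map_zero, le_zero_iff, map_eq_zero] at h2
        exact hi₀ (Subtype.ext h2)
      have hmem : ∀ i, (g i : F) / g i₁ ∈ P.ring := by
        intro i
        rw [← P.ring.valuation_le_one_iff, map_div₀]
        exact div_le_one_of_le₀ (hi₁ i (Finset.mem_univ _)) zero_le
      have hex : ∀ i, ∃ c : k, (g i : F) / g i₁ - algebraMap k F c ∈ P.ring.nonunits := fun i =>
        res_simple P hπ ((IntermediateField.adjoin k {π}).div_mem (g i).2 (g i₁).2) (hmem i)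
      choose c hc using hex
      have hc0 : ∀ i, c i = 0 := by
        refine Fintype.linearIndependent_iff.1 hs c ?_
        have h3 : ∑ i : s, (⟨(g i : F) / g i₁, hmem i⟩ : P.ring) * r i = 0 := by
          apply Subtype.ext
          have h4 : ∑ i : s, (g i : F) / g i₁ * (r i : F) = 0 := by
            have h5 : ∑ i : s, (g i : F) / g i₁ * (r i : F) =
                (∑ i : s, g i • (r i : F)) / g i₁ := by
              rw [Finset.sum_div]
              refine Finset.sum_congr rfl fun i _ => ?_
              rw [Algebra.smul_def]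
              change _ = (g i : F) * (r i : F) / g i₁
              ring
            rw [h5, hg, zero_div]
          refine Eq.trans ?_ h4
          push_cast
          rfl
        have h5 := congrArg (IsLocalRing.residue P.ring) h3
        rw [map_zero, map_sum] at h5
        rw [← h5]
        refine Finset.sum_congr rfl fun i _ => ?_
        rw [map_mul, hr]
        refine (hsm (c i) (i : κ)).trans ?_
        congr 1
        rw [eq_comm, ← sub_eq_zero, ← map_sub, hres]
        exact hc i
      have h6 := hc i₁
      rw [hc0, map_zero, sub_zero, div_self hg1] at h6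
      rw [ValuationSubring.mem_nonunits_iff, map_one] at h6
      exact lt_irrefl _ h6
    have h7 := hlin.fintype_card_le_finrank
    rwa [Fintype.card_coe] at h7
  have hfinκ : Module.Finite k κ := by
    rw [← Module.rank_lt_aleph0_iff]
    exact lt_of_le_of_lt (rank_le hcard) (Cardinal.natCast_lt_aleph0)
  let b := Module.finBasis k κ
  let T : Finset F := Finset.univ.image fun i => (r (b i) : F)
  obtain ⟨θ, hθ, q, hq, hqθ, hT⟩ := exists_theta hF P T (by
    intro z hz
    obtain ⟨i, -, rfl⟩ := Finset.mem_image.1 hz
    exact (r (b i)).2)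
  refine ⟨θ, hθ, q, hq, hqθ, ?_⟩
  intro z hz
  choose h hh using fun i => hT (r (b i) : F) (Finset.mem_image_of_mem _ (Finset.mem_univ i))
  set z' : P.ring := ⟨z, hz⟩ with hz'
  set a := b.repr (IsLocalRing.residue P.ring z') with ha
  refine ⟨∑ i, C (a i) * h i, ?_⟩
  have h1 : z - ∑ i, algebraMap k F (a i) * (r (b i) : F) ∈ P.ring.nonunits := by
    have h2 : z - ∑ i, algebraMap k F (a i) * (r (b i) : F) =
        ((z' - ∑ i, algebraMap k P.ring (a i) * r (b i) : P.ring) : F) := by
      push_cast
      rfl
    rw [h2, ← hres, map_sub, map_sum, sub_eq_zero, ← b.sum_repr (IsLocalRing.residue P.ring z')]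
    refine Finset.sum_congr rfl fun i _ => ?_
    rw [map_mul, hr]
    exact hsm _ _
  have h2 : z - aeval θ (∑ i, C (a i) * h i) = (z - ∑ i, algebraMap k F (a i) * (r (b i) : F)) +
      ∑ i, ((r (b i) : F) - aeval θ (h i)) * algebraMap k F (a i) := by
    rw [map_sum]
    have h3 : ∀ i, aeval θ (C (a i) * h i) = algebraMap k F (a i) * (r (b i) : F) -
        ((r (b i) : F) - aeval θ (h i)) * algebraMap k F (a i) := by
      intro i
      rw [map_mul, aeval_C]
      ring
    simp only [h3, Finset.sum_sub_distrib]
    ring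
  rw [h2]
  refine nonunit_add h1 ?_
  refine Finset.sum_induction _ (· ∈ P.ring.nonunits) (fun _ _ => nonunit_add)
    ((ValuationSubring.mem_nonunits_iff_or _).2 (Or.inl rfl)) fun i _ => ?_
  exact nonunit_mul (hh i) (P.algebraMap_mem _)

end Pool.Agent.TWT
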