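import Pool.Agent.Helper10.TWT.C1

/-!
# Project TWT: rational places of constant extensions
-/

universe u

namespace Pool.Agent.TWT

open VC Polynomial Pool.Agent.TW Pool.Agent.TWU

section const

variable {k₀ K₀ k K₁ : Type u} [Field k₀] [CharZero k₀] [Field K₀] [Algebra k₀ K₀] [Field k] [CharZero k]
  [Field K₁] [Algebra k K₁] [Algebra k₀ k] [Algebra K₀ K₁] [Algebra k₀ K₁] [IsScalarTower k₀ k K₁]
  [IsScalarTower k₀ K₀ K₁]

/-- one step of the division algorithm -/
theorem step' {P₀ : Place k₀ K₀} {O : Place k K₁}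
    (hO : ∀ z : K₀, algebraMap K₀ K₁ z ∈ O.ring ↔ z ∈ P₀.ring) {π : K₀} (hπ0 : π ≠ 0)
    (hπP : π ∈ P₀.ring.nonunits) (hπ : ∀ z ∈ P₀.ring.nonunits, z / π ∈ P₀.ring) {θ : K₀}
    (hθ : θ ∈ P₀.ring) {q : k₀[X]} (hq : Irreducible q) (hqθ : aeval θ q ∈ P₀.ring.nonunits)
    (hTθ : ∀ z ∈ P₀.ring, ∃ h : k₀[X], z - aeval θ h ∈ P₀.ring.nonunits) {c : k}
    (hc : algebraMap K₀ K₁ θ - algebraMap k K₁ c ∈ O.ring.nonunits) {a : K₁}
    (ha : a ∈ AA k K₁ P₀) (hao : a ∈ O.ring.nonunits) :
    ∃ s ∈ AA k K₁ P₀, s ∉ O.ring.nonunits ∧ ∃ a' ∈ AA k K₁ P₀, s * a = algebraMap K₀ K₁ π * a' := by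
  have hnon : ∀ z : K₀, algebraMap K₀ K₁ z ∈ O.ring.nonunits ↔ z ∈ P₀.ring.nonunits := by
    intro z
    rw [ValuationSubring.mem_nonunits_iff_or, ValuationSubring.mem_nonunits_iff_or, map_eq_zero,
      ← map_inv₀, hO]
  obtain ⟨T, hT, haT⟩ := exists_finset ha
  obtain ⟨h, a', ha', hdec⟩ := decomp hπ0 (ValuationSubring.nonunits_subset hπP) hπ hθ
    (fun z hz => hTθ z (hT z hz)) haT
  set θ' := algebraMap K₀ K₁ θ with hθ'
  have hθA : θ' ∈ AA k K₁ P₀ := mem_AA hθ
  -- values of polynomials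
  have hval : ∀ p : k[X], aeval θ' p ∈ O.ring.nonunits ↔ p.eval c = 0 := by
    intro p
    have h1 := aeval_sub_mem O.ring O.algebraMap_mem hc p
    constructor
    · intro h2
      refine const_zero O ?_
      have h3 := nonunit_sub h2 h1
      rwa [sub_sub_cancel] at h3
    · intro h2
      rwa [h2, map_zero, sub_zero] at h1
  set q' := q.map (algebraMap k₀ k) with hq'
  have hqθ' : aeval θ' q' = algebraMap K₀ K₁ (aeval θ q) := (aeval_alg θ q).symm
  have hqc : q'.eval c = 0 := by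
    rw [← hval, hqθ', hnon]
    exact hqθ
  obtain ⟨q1, hq1⟩ := dvd_iff_isRoot.2 hqc
  have hsep : q'.Separable := hq.separable.map
  have hq1c : q1.eval c ≠ 0 := by
    intro h1
    have h2 := hsep
    rw [hq1] at h2
    have h3 : IsCoprime (X - C c) q1 := h2.isCoprime
    obtain ⟨u, v, huv⟩ := h3
    have h4 := congrArg (eval c) huv
    rw [eval_add, eval_mul, eval_mul, eval_sub, eval_X, eval_C, sub_self, mul_zero, h1, mul_zero,
      add_zero, eval_one] at h4
    exact zero_ne_one h4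
  have hhc : h.eval c = 0 := by
    rw [← hval]
    have h1 : aeval θ' h = a - algebraMap K₀ K₁ π * a' := by rw [hdec]; ring
    rw [h1]
    exact nonunit_sub hao (nonunit_mul ((hnon π).2 hπP) (AA_le hO ha'))
  obtain ⟨h1, hh1⟩ := dvd_iff_isRoot.2 hhc
  refine ⟨aeval θ' q1, aeval_mem_AA hθA _, ?_, algebraMap K₀ K₁ (aeval θ q / π) * aeval θ' h1 +
    aeval θ' q1 * a', ?_, ?_⟩
  · rw [hval]
    exact hq1c
  · exact add_mem (mul_mem (mem_AA (hπ _ hqθ)) (aeval_mem_AA hθA _))
      (mul_mem (aeval_mem_AA hθA _) ha')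
  · have h2 : algebraMap K₀ K₁ π * algebraMap K₀ K₁ (aeval θ q / π) = aeval θ' q' := by
      rw [← map_mul, mul_div_cancel₀ _ hπ0, hqθ']
    have h3 : aeval θ' q' = (θ' - algebraMap k K₁ c) * aeval θ' q1 := by
      rw [hq1, map_mul, map_sub, aeval_X, aeval_C]
    have h4 : aeval θ' h = (θ' - algebraMap k K₁ c) * aeval θ' h1 := by
      rw [hh1, map_mul, map_sub, aeval_X, aeval_C]
    rw [hdec, h4, mul_add (algebraMap K₀ K₁ π), ← mul_assoc (algebraMap K₀ K₁ π), h2, h3]
    ring

/-- **A place over `P₀` at which `θ` has a residue in `k` is rational.** -/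
theorem ratPlace_of (hF₀ : IsFunctionField k₀ K₀) (hF : IsFunctionField k K₁)
    (hgen : IntermediateField.adjoin k (Set.range (algebraMap K₀ K₁)) = ⊤)
    {P₀ : Place k₀ K₀} {O : Place k K₁}
    (hO : ∀ z : K₀, algebraMap K₀ K₁ z ∈ O.ring ↔ z ∈ P₀.ring) {θ : K₀}
    (hθ : θ ∈ P₀.ring) {q : k₀[X]} (hq : Irreducible q) (hqθ : aeval θ q ∈ P₀.ring.nonunits)
    (hTθ : ∀ z ∈ P₀.ring, ∃ h : k₀[X], z - aeval θ h ∈ P₀.ring.nonunits) {c : k}
    (hc : algebraMap K₀ K₁ θ - algebraMap k K₁ c ∈ O.ring.nonunits) : RatPlace O := by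
  obtain ⟨π, hπ0, hπ1⟩ := exists_unif hF₀ P₀
  have hπP : π ∈ P₀.ring.nonunits := (nonunit_iff_ord hF₀ P₀ hπ0).2 (by omega)
  have hπd : ∀ z ∈ P₀.ring.nonunits, z / π ∈ P₀.ring := by
    intro z hz
    by_cases hz0 : z = 0
    · rw [hz0, zero_div]
      exact P₀.ring.zero_mem
    · rw [mem_iff_ord hF₀ P₀ (div_ne_zero hz0 hπ0), div_eq_mul_inv,
        ord_mul' hF₀ P₀ hz0 (inv_ne_zero hπ0), ord_inv' hF₀ P₀ hπ0]
      have h1 := (nonunit_iff_ord hF₀ P₀ hz0).1 hz
      omega
  have hnon : ∀ z : K₀, algebraMap K₀ K₁ z ∈ O.ring.nonunits ↔ z ∈ P₀.ring.nonunits := by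
    intro z
    rw [ValuationSubring.mem_nonunits_iff_or, ValuationSubring.mem_nonunits_iff_or, map_eq_zero,
      ← map_inv₀, hO]
  have hπ' : algebraMap K₀ K₁ π ≠ 0 := (_root_.map_ne_zero _).2 hπ0
  have hπO : algebraMap K₀ K₁ π ∈ O.ring.nonunits := (hnon π).2 hπP
  have hpos : 0 < ord O.ring (algebraMap K₀ K₁ π) := (nonunit_iff_ord hF O hπ').1 hπO
  have h0 : (0 : K₁) ∈ O.ring.nonunits := (ValuationSubring.mem_nonunits_iff_or _).2 (Or.inl rfl)
  -- residues of elements of `AA`
  have hAA : ∀ a ∈ AA k K₁ P₀, ∃ e : k, a - algebraMap k K₁ e ∈ O.ring.nonunits := by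
    intro a ha
    induction ha using Algebra.adjoin_induction with
    | mem x hx =>
      obtain ⟨z, hz, rfl⟩ := hx
      obtain ⟨h, hh⟩ := hTθ z hz
      refine ⟨(h.map (algebraMap k₀ k)).eval c, ?_⟩
      have h1 := (hnon _).2 hh
      have h2 := aeval_sub_mem O.ring O.algebraMap_mem hc (h.map (algebraMap k₀ k))
      rw [map_sub, aeval_alg (k := k)] at h1
      have h3 := nonunit_add h1 h2
      rwa [sub_add_sub_cancel] at h3
    | algebraMap r =>
      refine ⟨r, ?_⟩
      rw [sub_self]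
      exact h0
    | add x y _ _ hx hy =>
      obtain ⟨e, he⟩ := hx
      obtain ⟨e', he'⟩ := hy
      refine ⟨e + e', ?_⟩
      have h1 := nonunit_add he he'
      rw [map_add]
      convert h1 using 1
      ring
    | mul x y _ hy0 hx hy =>
      obtain ⟨e, he⟩ := hx
      obtain ⟨e', he'⟩ := hy
      refine ⟨e * e', ?_⟩
      have h1 := nonunit_add (nonunit_mul he (AA_le hO hy0)) (nonunit_mul he' (O.algebraMap_mem e))
      rw [map_mul]
      convert h1 using 1
      ring
  -- the induction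
  have hmain : ∀ n : ℕ, ∀ a ∈ AA k K₁ P₀, ∀ b ∈ AA k K₁ P₀, b ≠ 0 → ord O.ring b ≤ n →
      a / b ∈ O.ring → ∃ e : k, a / b - algebraMap k K₁ e ∈ O.ring.nonunits := by
    intro n
    induction n with
    | zero =>
      intro a ha b hb hb0 hn hab
      have h1 := (mem_iff_ord hF O hb0).1 (AA_le hO hb)
      have hbn : b ∉ O.ring.nonunits := by
        intro h2
        have h3 := (nonunit_iff_ord hF O hb0).1 h2
        push_cast at hn
        omega
      obtain ⟨e, he⟩ := hAA a ha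
      obtain ⟨e', he'⟩ := hAA b hb
      have he0 : e' ≠ 0 := by
        rintro rfl
        rw [map_zero, sub_zero] at he'
        exact hbn he'
      have he1 : algebraMap k K₁ e' ≠ 0 := (_root_.map_ne_zero _).2 he0
      refine ⟨e / e', ?_⟩
      have h4 : a / b - algebraMap k K₁ (e / e') =
          ((a - algebraMap k K₁ e) - (b - algebraMap k K₁ e') * (a / b)) *
            algebraMap k K₁ e'⁻¹ := by
        rw [map_div₀, map_inv₀]
        field_simp
        ring
      rw [h4]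
      exact nonunit_mul (nonunit_sub he (nonunit_mul he' hab)) (O.algebraMap_mem _)
    | succ n ih =>
      intro a ha b hb hb0 hn hab
      by_cases hbn : b ∈ O.ring.nonunits
      · have han : a ∈ O.ring.nonunits := by
          have h1 : a = b * (a / b) := by field_simp
          rw [h1]
          exact nonunit_mul hbn hab
        obtain ⟨s, hs, hsO, a', ha', h1⟩ := step' hO hπ0 hπP hπd hθ hq hqθ hTθ hc ha han
        obtain ⟨s', hs', hsO', b', hb', h2⟩ := step' hO hπ0 hπP hπd hθ hq hqθ hTθ hc hb hbn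
        have hs0 : s ≠ 0 := by
          rintro rfl
          exact hsO h0
        have hs0' : s' ≠ 0 := by
          rintro rfl
          exact hsO' h0
        have hb'0 : b' ≠ 0 := by
          rintro rfl
          rw [mul_zero] at h2
          exact (mul_ne_zero hs0' hb0) h2
        have ho : ∀ s ∈ AA k K₁ P₀, s ≠ 0 → s ∉ O.ring.nonunits → ord O.ring s = 0 := by
          intro s hs hs0 hsO
          have h2 := (mem_iff_ord hF O hs0).1 (AA_le hO hs)
          have h3 := mt (nonunit_iff_ord hF O hs0).2 hsO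
          omega
        have h3 := congrArg (ord O.ring) h2
        rw [ord_mul' hF O hs0' hb0, ord_mul' hF O hπ' hb'0, ho s' hs' hs0' hsO', zero_add] at h3
        have h4 : a / b = (s' * a') / (s * b') := by
          rw [div_eq_div_iff hb0 (mul_ne_zero hs0 hb'0)]
          have h5 : algebraMap K₀ K₁ π * (a * (s * b')) = algebraMap K₀ K₁ π * (s' * a' * b) := by
            calc algebraMap K₀ K₁ π * (a * (s * b')) = (s * a) * (algebraMap K₀ K₁ π * b') := by ring
              _ = (algebraMap K₀ K₁ π * a') * (s' * b) := by rw [h1, ← h2]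
              _ = _ := by ring
          exact mul_left_cancel₀ hπ' h5
        rw [h4]
        rw [h4] at hab
        refine ih _ (mul_mem hs' ha') _ (mul_mem hs hb') (mul_ne_zero hs0 hb'0) ?_ hab
        rw [ord_mul' hF O hs0 hb'0, ho s hs hs0 hsO, zero_add]
        push_cast at hn
        omega
      · refine ih a ha b hb hb0 ?_ hab
        have h2 := (mem_iff_ord hF O hb0).1 (AA_le hO hb)
        have h3 := mt (nonunit_iff_ord hF O hb0).2 hbn
        omega
  intro z hz
  obtain ⟨a, ha, b, hb, hb0, rfl⟩ := exists_quot hgen P₀ z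
  exact hmain (ord O.ring b).toNat a ha b hb hb0 (Int.self_le_toNat _) hz

end const

end Pool.Agent.TWT
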