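import Pool.Agent.Helper10.TWT.C2
import Pool.Agent.Helper10.TWT.C3
import Pool.Agent.Helper10.TWT.Fin2
import Pool.Agent.Helper10.TWT.E6
import Pool.Agent.Helper37.TWU.G

/-!
# Project TWT: the uniform core
-/

universe u

set_option linter.unusedSectionVars false

namespace Pool.Agent.TWT

open VC Polynomial Pool.Agent.LT Pool.Agent.SC Pool.Agent.Helper91.Sect Pool.Agent Pool.Agent.GC
  Pool.Agent.TW Pool.Agent.TWU

/-- **The uniform core.** -/
theorem exists_coreU {k₀ K₀ : Type u} [Field k₀] [CharZero k₀] [Field K₀] [Algebra k₀ K₀]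
    (hK₀ : IsFunctionField k₀ K₀) {g : K₀} (hg : g ≠ 0) :
    ∃ (M : Finset k₀[X]) (U₀ : Finset k₀), (∀ q ∈ M, q ≠ 0) ∧ 0 ∉ U₀ ∧ CoreU g M U₀ := by
  classical
  obtain ⟨x, z₀, f, S, hx, hgen, hdeg, hsep, hgood⟩ := exists_goodPoly hK₀ hg
  have hc : Coord g x z₀ f S := ⟨hg, hK₀, hx, hgen, hdeg, hsep, hgood⟩
  obtain ⟨E₀, hE₀⟩ := exists_residElts hc
  have hx0 : x ≠ 0 := by
    rintro rfl
    exact hx isAlgebraic_zero
  have htx : Transcendental k₀ x⁻¹ := fun h => hx (by rw [← inv_inv x]; exact h.inv)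
  have htf : Transcendental k₀ (aeval x f) := hx.aeval f (by omega)
    (mem_nonZeroDivisors_of_ne_zero
      (leadingCoeff_ne_zero.2 (ne_zero_of_natDegree_gt (n := 0) (by omega))))
  let OO : Set (Place k₀ K₀) := {O | x⁻¹ ∈ O.ring.nonunits} ∪ {O | aeval x f ∈ O.ring.nonunits}
  have hOO : OO.Finite := (finite_zeros hK₀ htx).union (finite_zeros hK₀ htf)
  choose θf hθf qf hqi hqθ hall using fun O₀ : Place k₀ K₀ => exists_theta_all hK₀ O₀
  refine ⟨hOO.toFinset.image qf, ((goodElts f 1 ∪ S) ∪ E₀).erase 0, ?_, ?_, ?_⟩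
  · intro q hq
    obtain ⟨O, -, rfl⟩ := Finset.mem_image.1 hq
    exact (hqi O).ne_zero
  · exact fun h => (Finset.mem_erase.1 h).1 rfl
  intro F k K₁ _ _ _ _ _ _ _ _ _ _ hF hk t hfin hgenK htr v n j hn hj hbr K _ _ _ _ y hy heq hrat W
    hWtop hFW hU hvW hv0 hdisc hmove
  have hk0 : CharZero k := charZero_of_injective_algebraMap (algebraMap k₀ k).injective
  have hF0 : CharZero F := by
    refine ⟨fun m n hmn => ?_⟩
    have h1 := congrArg (algebraMap F k) hmn
    rw [map_natCast, map_natCast] at h1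
    exact Nat.cast_injective h1
  have hxk : Transcendental k (algebraMap K₀ K₁ x) := transc_map hK₀ hx htr
  have hc1 : Coord (algebraMap K₀ K₁ g) (algebraMap K₀ K₁ x) (algebraMap K₀ K₁ z₀)
      (f.map (algebraMap k₀ k)) (S.image (algebraMap k₀ k)) := coord_map hc hgenK hxk
  have hmem : ∀ a ∈ (goodElts f 1 ∪ S) ∪ E₀, algebraMap k (kbar k K) (algebraMap k₀ k a) ∈ W := by
    intro a ha
    by_cases h0 : a = 0
    · rw [h0, map_zero, map_zero]
      exact W.zero_mem
    · exact (W.valuation_le_one_iff _).1 (hU a (Finset.mem_erase.2 ⟨h0, ha⟩)).le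
  refine no_section_place hF hk hfin hc1 hn hj hbr hy heq hrat hWtop hFW ?_ hvW hv0 hdisc ?_ ?_
  · intro a ha
    rcases Finset.mem_union.1 ha with ha | ha
    · obtain ⟨b, hb, rfl⟩ := Finset.mem_image.1 (goodElts_map (k := k) (by omega) ha)
      exact hmem b (Finset.mem_union_left _ (Finset.mem_union_left _ hb))
    · obtain ⟨b, hb, rfl⟩ := Finset.mem_image.1 ha
      exact hmem b (Finset.mem_union_left _ (Finset.mem_union_right _ hb))
  · intro O hbad hr
    have hbad' : algebraMap K₀ K₁ x⁻¹ ∈ O.ring.nonunits ∨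
        algebraMap K₀ K₁ (aeval x f) ∈ O.ring.nonunits := by
      rw [map_inv₀, aeval_alg (k := k)]
      exact hbad
    have hnon : ∀ z : K₀, z ∈ (O.ring.comap (algebraMap K₀ K₁)).nonunits ↔
        algebraMap K₀ K₁ z ∈ O.ring.nonunits := by
      intro z
      rw [ValuationSubring.mem_nonunits_iff_or, ValuationSubring.mem_nonunits_iff_or,
        ValuationSubring.mem_comap, map_inv₀, map_eq_zero]
    rw [← hnon, ← hnon] at hbad'
    let O₀ : Place k₀ K₀ :=
      { ring := O.ring.comap (algebraMap K₀ K₁)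
        algebraMap_mem := fun c => by
          rw [ValuationSubring.mem_comap, ← IsScalarTower.algebraMap_apply,
            IsScalarTower.algebraMap_apply k₀ k K₁]
          exact O.algebraMap_mem _
        ne_top := by
          intro h
          have h1 : ∀ z : K₀, z ≠ 0 → z ∉ (O.ring.comap (algebraMap K₀ K₁)).nonunits := by
            intro z hz h2
            rcases (ValuationSubring.mem_nonunits_iff_or _).1 h2 with h3 | h3
            · exact hz h3
            · apply h3
              rw [h]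
              trivial
          rcases hbad' with h2 | h2
          · exact h1 _ (inv_ne_zero hx0) h2
          · refine h1 _ ?_ h2
            intro h3
            exact htf (by rw [h3]; exact isAlgebraic_zero) }
    have hO : O₀ ∈ hOO.toFinset := by
      rw [Set.Finite.mem_toFinset]
      exact hbad'
    have hOiff : ∀ z : K₀, algebraMap K₀ K₁ z ∈ O.ring ↔ z ∈ O₀.ring := fun z => Iff.rfl
    refine ⟨(qf O₀).map (algebraMap k₀ k), algebraMap K₀ K₁ (θf O₀), hθf O₀, ?_, ?_, ?_⟩
    · intro c hc2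
      exact hr (ratPlace_of hK₀ hc1.ff hgenK hOiff (hθf O₀) (hqi O₀) (hqθ O₀) (hall O₀) hc2)
    · rw [← aeval_alg]
      exact (hnon _).1 (hqθ O₀)
    · exact hmove _ (Finset.mem_image_of_mem _ hO)
  · intro O hbad hr
    obtain ⟨γ, hγ0, hγW, hγ⟩ := hE₀ k K₁ hc1.ff hgenK O hr hbad
    exact ⟨γ, hγ0, hγW (kbar k K) W fun a ha => hmem a (Finset.mem_union_right _ ha), hγ⟩

/-- **The key statement for twists.** -/
theorem keyT_twist {k₀ K₀ : Type u} [Field k₀] [CharZero k₀] [Field K₀] [Algebra k₀ K₀]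
    (hK₀ : IsFunctionField k₀ K₀) {g : K₀} (hg : g ≠ 0) :
    KeyT k₀ (I := Unit) (BadTwist g) := by
  obtain ⟨M, U₀, hM, hU, hcore⟩ := exists_coreU hK₀ hg
  exact keyT_of_core hM hU hcore

/-- **Almost all twists have no sections, uniformly in the field of constants.** -/
theorem twists_thinU {F₀ k₀ K₀ : Type u} [Field F₀] [CharZero F₀] [Field k₀] [Algebra F₀ k₀]
    [Field K₀] [Algebra k₀ K₀]
    (hk₀ : ∃ S : Finset k₀, Subfield.closure (S : Set k₀) = ⊤) {m : ℕ} {w : Fin (m + 1) → k₀}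
    {i l : Fin (m + 1)} (hw : Transcendental F₀ (w i / w l))
    (hK₀ : IsFunctionField k₀ K₀) {g : K₀} (hg : g ≠ 0) :
    ∃ Φ : Polynomial (MvPolynomial (Fin (m + 1)) F₀), UT.NoRoot Φ ∧
      ∀ (F k K₁ : Type u) [Field F] [Field k] [Field K₁] [Algebra F₀ F] [Algebra F k] [Algebra k₀ k]
        [Algebra F₀ k] [IsScalarTower F₀ F k] [IsScalarTower F₀ k₀ k] [Algebra k K₁] [Algebra K₀ K₁]
        [Algebra k₀ K₁] [IsScalarTower k₀ k K₁] [IsScalarTower k₀ K₀ K₁],
        (∃ S : Finset F, Subfield.closure (S : Set F) = ⊤) →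
        IntermediateField.adjoin F (Set.range (algebraMap k₀ k)) = ⊤ →
        (∀ {n : ℕ} {x : Fin n → k₀}, AlgebraicIndependent F₀ x →
          AlgebraicIndependent F (algebraMap k₀ k ∘ x)) →
        IntermediateField.adjoin k (Set.range (algebraMap K₀ K₁)) = ⊤ →
        (∃ y : K₀, Transcendental k (algebraMap K₀ K₁ y)) →
        ∀ a : Fin (m + 1) → F, (∀ x : F, Polynomial.eval₂ (UT.aeR a) x Φ ≠ 0) →
          NoSecTwist (algebraMap K₀ K₁ g)
            (∑ e, algebraMap F k (a e) * algebraMap k₀ k (w e)) := by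
  have hk₀0 : CharZero k₀ := charZero_of_injective_algebraMap (algebraMap F₀ k₀).injective
  obtain ⟨Φ, hΦ, h1⟩ := thin_of_keyT (keyT_twist hK₀ hg) hk₀ (w := w) hw
  refine ⟨_, hΦ.rename (Equiv.punitProd (Fin (m + 1))), ?_⟩
  intro F k K₁ _ _ _ _ _ _ _ _ _ _ _ _ _ _ hF hgenk hfree hgenK htr a ha
  by_contra hcon
  obtain ⟨x, hx⟩ := h1 F k hF hgenk (fun hx => hfree hx) (fun p => a p.2) ⟨K₁, inferInstance,
    inferInstance, algebraMap K₀ K₁, fun c => by
      rw [← IsScalarTower.algebraMap_apply, IsScalarTower.algebraMap_apply k₀ k K₁], hgenK, htr,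
      hcon⟩
  apply ha x
  rw [Polynomial.eval₂_map, ← hx]
  congr 1
  refine RingHom.ext fun p => ?_
  change MvPolynomial.aeval a (MvPolynomial.rename _ p) = MvPolynomial.aeval _ p
  rw [MvPolynomial.aeval_rename]
  rfl

end Pool.Agent.TWT
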