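import Pool.Agent.Helper10.TWT.E4

/-!
# Project TWT: the key statement

As `UT.KeyV`, but with stronger assumptions: the algebraic functions of the parameters in the fields `Fv j` are rational
functions with constant coefficients, and the fields `Fv j` are contained in the fields `Kb j`.
-/

universe u v

namespace Pool.Agent.TWT

open IntermediateField Pool.Agent.Helper37.UL UL Pool.Agent.OPN Pool.Agent.BT Pool.Agent.OPG Pool.Agent.UT

/-- **The key statement**, for `w 0 ≠ 0`. -/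
def KeyT (k₀ : Type u) [Field k₀] {I : Type}
    (P : ∀ (k' : Type u) [Field k'], (k₀ →+* k') → (I → k') → Prop) : Prop :=
  ∀ {J F k C : Type u} [Field F] [CharZero F] [Field k] [Algebra F k] [Field C]
    [Algebra k C] [Algebra F C] [IsScalarTower F k C] [IsAlgClosure k C]
    (ι : k₀ →+* k) {T q : k} (_ : Transcendental F T) (_ : adjoin F {T, q} = ⊤)
    {κ : Subfield C} (_ : ∀ c : C, c ∈ κ ↔ IsAlgebraic F c)
    {Fs κs : Subfield C} (_ : ∀ c : C, c ∈ κs ↔ IsAlgebraic Fs c)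
    {Fv : J → Subfield C} (_ : ∀ j, Fs ≤ Fv j) (_ : ∀ j, Fv j ≤ (algebraMap F C).fieldRange)
    (_ : Fs ≤ (algebraMap F C).fieldRange)
    (_ : IsAlgebraic (gen Fs ![algebraMap k C T]) (algebraMap k C q))
    (_ : ∀ a : k₀, algebraMap k C (ι a) ∈
      Subfield.closure ((Fs : Set C) ∪ {algebraMap k C T, algebraMap k C q})) {m : ℕ}
    {w : Fin (m + 2) → k₀} (_ : w 0 ≠ 0) (_ : ι (w 1) = T * ι (w 0))
    {Uf : Ultrafilter J} {S : Type u} [Field S] {π : (J → C) →+* S} (h : UP Uf π)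
    {vv : J → I × Fin (m + 2) → F} (_ : ∀ j i, algebraMap F C (vv j i) ∈ Fv j)
    (_ : AlgebraicIndependent (Fs.map (UP.cst π)) (xg π fun j i => algebraMap F C (vv j i)))
    (_ : ∀ z ∈ h.fsub Fv,
      IsAlgebraic (gn (Fs.map (UP.cst π)) (xg π fun j i => algebraMap F C (vv j i))) z →
      z ∈ gn (κs.map (UP.cst π)) (xg π fun j i => algebraMap F C (vv j i)))
    {Kb : J → Subfield k} (_ : ∀ a (y : k), algebraMap k C y ∈ Fs → y ∈ Kb a)
    (_ : ∀ a, T ∈ Kb a) (_ : ∀ a, q ∈ Kb a) (_ : ∀ a i, algebraMap F k (vv a i) ∈ Kb a)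
    (_ : ∀ j, Fv j ≤ (Kb j).map (algebraMap k C))
    (_ : ∀ j, (Kb j).map (algebraMap k C) ≤
      Subfield.closure ((Fv j : Set C) ∪ {algebraMap k C T, algebraMap k C q}))
    (_ : ∀ j, Mod (F := F) (C := C) ι (Kb j) P (PL.sysW (ι ∘ w) (vv j))), False

end Pool.Agent.TWT
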