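import Pool.Agent.Helper10.TWT.A6
import Pool.Agent.Helper10.TWT.KeyT
import Pool.Agent.Helper13.TW.Fin
import Pool.Agent.Helper97.GS.Restr

/-!
# Project TWT: the key statement for twists without sections
-/

universe u v

namespace Pool.Agent.TWT

open VC Polynomial Pool.Agent.LT Pool.Agent.SC Pool.Agent.Helper91.Sect Pool.Agent.GC
  Pool.Agent.Helper37.UL UL Pool.Agent.OPN Pool.Agent.OPG Pool.Agent.BT Pool.Agent.TW

/-- Some twist of a cyclic cover of the curve `k' K₀` by `f ()` has a section, against the expectation. -/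
def BadTwist {k₀ K₀ : Type u} [Field k₀] [Field K₀] [Algebra k₀ K₀] (g : K₀) (k' : Type u)
    [Field k'] (ι : k₀ →+* k') (f : Unit → k') : Prop :=
  ∃ (K₁ : Type u) (_ : Field K₁) (_ : Algebra k' K₁) (τ : K₀ →+* K₁),
    (∀ c : k₀, τ (algebraMap k₀ K₀ c) = algebraMap k' K₁ (ι c)) ∧
    IntermediateField.adjoin k' (Set.range τ) = ⊤ ∧
    (∃ y : K₀, Transcendental k' (τ y)) ∧ ¬ NoSecTwist (τ g) (f ())

/-- The core statement over varying base fields. -/
def CoreU {k₀ K₀ : Type u} [Field k₀] [Field K₀] [Algebra k₀ K₀] (g : K₀) (M : Finset k₀[X])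
    (U₀ : Finset k₀) : Prop :=
  ∀ (F k K₁ : Type u) [Field F] [Field k] [Field K₁] [Algebra F k] [Algebra k₀ k] [Algebra k K₁]
    [Algebra K₀ K₁] [Algebra k₀ K₁] [IsScalarTower k₀ k K₁] [IsScalarTower k₀ K₀ K₁],
    (∃ S : Finset F, Subfield.closure (S : Set F) = ⊤) →
    (∃ S : Finset k, Subfield.closure (S : Set k) = ⊤) →
    ∀ t : k, FiniteDimensional (IntermediateField.adjoin F {t}) k →
    IntermediateField.adjoin k (Set.range (algebraMap K₀ K₁)) = ⊤ →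
    (∃ y : K₀, Transcendental k (algebraMap K₀ K₁ y)) →
    ∀ (v : k) (n j : ℕ), 0 < n → ¬ n ∣ j →
    (∀ O : Place k K₁, RatPlace O →
      ∃ δ : ℕ, δ ∣ n ∧ ¬ δ ∣ j ∧ (δ : ℤ) ∣ ord O.ring (algebraMap K₀ K₁ g)) →
    ∀ (K : Type u) [Field K] [Algebra k K] [Algebra K₁ K] [IsScalarTower k K₁ K] (y : K),
    IntermediateField.adjoin K₁ {y} = ⊤ →
    algebraMap k K (v ^ j) * y ^ n = algebraMap K₁ K (algebraMap K₀ K₁ g) →
    (∀ z : MM k K, IntermediateField.adjoin (kbar k K) {z} ≠ ⊤) →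
    ∀ W : ValuationSubring (kbar k K), W ≠ ⊤ →
    (∀ c : F, algebraMap k (kbar k K) (algebraMap F k c) ∈ W) →
    (∀ u ∈ U₀, W.valuation (algebraMap k (kbar k K) (algebraMap k₀ k u)) = 1) →
    algebraMap k (kbar k K) v ∈ W.nonunits → v ≠ 0 →
    (∀ z : k, z ≠ 0 → ∃ i : ℤ, W.valuation (algebraMap k (kbar k K) z) =
      W.valuation (algebraMap k (kbar k K) v) ^ i) →
    (∀ q ∈ M, ∀ ρ : kbar k K, aeval ρ (q.map (algebraMap k₀ k)) = 0 →
      (∀ c : k, algebraMap k (kbar k K) c ≠ ρ) → ∃ γ : Gk k K, InDecomp W γ ∧ γ ρ ≠ ρ) →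
    IsEmpty (GaloisSection k K)

/-- a place with a given property gives the absence of sections -/
theorem noSec_of_place {k₀ K₀ : Type u} [Field k₀] [Field K₀] [Algebra k₀ K₀] {g : K₀}
    {M : Finset k₀[X]} {U₀ : Finset k₀} (hcore : CoreU g M U₀) {C : Type u}
    [Field C] [CharZero C] {k₁ k' : Type u} [Field k₁] [CharZero k₁] [Field k'] [Algebra k₁ k'] {T' : k'}
    (ψ : AlgebraicClosure k' →+* C) {ι' : k₀ →+* k'} {f' : k'}
    (hk₁ : ∃ S : Finset k₁, Subfield.closure (S : Set k₁) = ⊤)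
    (hfin : FiniteDimensional (IntermediateField.adjoin k₁ {T'}) k')
    {W : ValuationSubring C}
    (hW1 : ∀ c : k₁, ψ (algebraMap k' (AlgebraicClosure k') (algebraMap k₁ k' c)) ∈ W)
    (hW2 : ∀ u ∈ U₀, W.valuation (ψ (algebraMap k' (AlgebraicClosure k') (ι' u))) = 1)
    (hW3 : W.valuation (ψ (algebraMap k' (AlgebraicClosure k') f')) < 1) (hf : f' ≠ 0)
    (hW4 : ∀ z : k', z ≠ 0 → ∃ i : ℤ, W.valuation (ψ (algebraMap k' (AlgebraicClosure k') z)) =
      W.valuation (ψ (algebraMap k' (AlgebraicClosure k') f')) ^ i)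
    (hW5 : ∀ q ∈ M, ∀ b : C, eval₂ (ψ.comp ((algebraMap k' (AlgebraicClosure k')).comp ι')) b q = 0 →
      (∀ c : k', ψ (algebraMap k' (AlgebraicClosure k') c) ≠ b) →
      ∃ γ : C ≃+* C, (∀ z : k', γ (ψ (algebraMap k' (AlgebraicClosure k') z)) =
        ψ (algebraMap k' (AlgebraicClosure k') z)) ∧ (∀ z, γ z ∈ W ↔ z ∈ W) ∧ γ b ≠ b) :
    ¬ BadTwist g k' ι' (fun _ => f') := by
  rintro ⟨K₁, _, _, τ, hτ, hgen, htr, hno⟩
  apply hno
  let i1 : Algebra k₀ k' := ι'.toAlgebra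
  let i2 : Algebra K₀ K₁ := τ.toAlgebra
  let i3 : Algebra k₀ K₁ := (τ.comp (algebraMap k₀ K₀)).toAlgebra
  have s1 : IsScalarTower k₀ k' K₁ := IsScalarTower.of_algebraMap_eq hτ
  have s2 : IsScalarTower k₀ K₀ K₁ := IsScalarTower.of_algebraMap_eq fun _ => rfl
  have hk' : ∃ S : Finset k', Subfield.closure (S : Set k') = ⊤ :=
    fg_of_finite hk₁ (T := T')
  intro n j hn hj hbr K _ _ _ _ y hy heq hrat
  let e : AlgebraicClosure k' ≃ₐ[k'] kbar k' K :=
    IsAlgClosure.equiv k' (AlgebraicClosure k') (kbar k' K)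
  let χ : kbar k' K →+* C := ψ.comp (e.symm : kbar k' K →+* AlgebraicClosure k')
  have hχk : ∀ z : k', χ (algebraMap k' (kbar k' K) z) =
      ψ (algebraMap k' (AlgebraicClosure k') z) := fun z => congrArg ψ (e.symm.commutes z)
  have hmem : ∀ z, z ∈ W.comap χ ↔ χ z ∈ W := fun _ => Iff.rfl
  have hf0 : algebraMap k' (kbar k' K) f' ≠ 0 := (_root_.map_ne_zero _).2 hf
  refine hcore k₁ k' K₁ hk₁ hk' T' hfin hgen htr f' n j hn hj hbr K y hy heq hrat (W.comap χ)
    ?_ ?_ ?_ ?_ hf ?_ ?_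
  · intro h
    have h1 : (algebraMap k' (kbar k' K) f')⁻¹ ∈ W.comap χ := by rw [h]; trivial
    rw [hmem, map_inv₀, hχk] at h1
    rw [← ValuationSubring.mem_nonunits_iff] at hW3
    rcases (ValuationSubring.mem_nonunits_iff_or _).1 hW3 with h2 | h2
    · rw [map_eq_zero, map_eq_zero] at h2
      exact hf h2
    · exact h2 h1
  · intro c
    rw [hmem, hχk]
    exact hW1 c
  · intro u hu
    rw [comap_eq_one, hχk]
    exact hW2 u hu
  · rw [ValuationSubring.mem_nonunits_iff, comap_lt_one, hχk]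
    exact hW3
  · intro z hz
    obtain ⟨i, hi⟩ := hW4 z hz
    refine ⟨i, ?_⟩
    rw [← map_zpow₀, comap_eq _ _ (zpow_ne_zero i hf0), map_zpow₀, map_zpow₀, hχk, hχk]
    exact hi
  · intro q hq ρ hρ hρk
    have h0 : eval₂ (ψ.comp ((algebraMap k' (AlgebraicClosure k')).comp ι')) (χ ρ) q = 0 := by
      have h1 := congrArg χ hρ
      rw [map_zero, aeval_def, eval₂_map, hom_eval₂] at h1
      rw [← h1]
      congr 1
      refine RingHom.ext fun c => ?_
      exact (hχk (ι' c)).symm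
    have h1 : ∀ c : k', ψ (algebraMap k' (AlgebraicClosure k') c) ≠ χ ρ := by
      intro c hc
      apply hρk c
      apply χ.injective
      rw [hχk]
      exact hc
    obtain ⟨γ, hγ1, hγ2, hγ3⟩ := hW5 q hq _ h0 h1
    obtain ⟨γ', hγ'⟩ := GS.exists_restr (k' := k') ψ (γ : C →+* C) hγ1
    have hγ'' : ∀ y, ψ (γ' y) = γ (ψ y) := hγ'
    refine ⟨(e.symm.trans γ').trans e, ?_, ?_⟩
    · intro z
      rw [hmem, hmem]
      change ψ (e.symm (e (γ' (e.symm z)))) ∈ W ↔ _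
      rw [AlgEquiv.symm_apply_apply, hγ'']
      exact hγ2 _
    · change e (γ' (e.symm ρ)) ≠ ρ
      intro h2
      apply hγ3
      change γ (ψ (e.symm ρ)) = ψ (e.symm ρ)
      rw [← hγ'']
      congr 1
      apply e.injective
      rw [h2, AlgEquiv.apply_symm_apply]

end Pool.Agent.TWT
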